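import Mathlib

/-! Basic finiteness lemmas for metabelian-by-polycyclic groups. -/

namespace MBP

open Subgroup

variable {G : Type*} [Group G]

/-- `K` is finitely generated modulo `N`. -/
def FGmod (N K : Subgroup G) : Prop :=
  ∃ S : Set G, S.Finite ∧ S ⊆ K ∧ K ≤ N ⊔ closure S

/-- every subgroup of `H` is finitely generated -/
def NS (H : Subgroup G) : Prop := ∀ K ≤ H, K.FG

/-- property (C) for the subgroup `H` -/
def PS (H : Subgroup G) : Prop := ∀ K ≤ H, K.FG → (H ⊓ centralizer (K : Set G)).FG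

/-- `K₀` is covered by finitely many left cosets of `K` -/
def CF (K K₀ : Subgroup G) : Prop :=
  ∃ T : Set G, T.Finite ∧ T ⊆ K₀ ∧ ∀ x ∈ K₀, ∃ t ∈ T, t⁻¹ * x ∈ K

theorem fg_closure {S : Set G} (hS : S.Finite) : (closure S).FG :=
  (Subgroup.fg_iff _).2 ⟨S, rfl, hS⟩

theorem fg_map {G' : Type*} [Group G'] (f : G →* G') {K : Subgroup G} (h : K.FG) :
    (K.map f).FG := by
  obtain ⟨S, rfl, hS⟩ := (Subgroup.fg_iff _).1 h
  rw [MonoidHom.map_closure]
  exact fg_closure (hS.image _)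

theorem fg_type_comm {C : Type*} [CommGroup C] [h1 : Group.FG C] (K : Subgroup C) : K.FG := by
  have h2 : AddGroup.FG (Additive C) := (GroupFG.iff_add_fg).1 h1
  have h3 : Module.Finite ℤ (Additive C) := Module.Finite.iff_addGroup_fg.2 h2
  have h4 : IsNoetherian ℤ (Additive C) := inferInstance
  rw [Subgroup.fg_iff_add_fg]
  have h5 := (IsNoetherian.noetherian (AddSubgroup.toIntSubmodule (toAddSubgroup K)))
  rw [Submodule.fg_iff_addSubgroup_fg] at h5
  exact h5

/-- subgroups of finitely generated commutative subgroups are finitely generated -/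
theorem comm_sub_fg {Y : Subgroup G} (hY : Y.FG) (hc : ∀ x ∈ Y, ∀ y ∈ Y, x * y = y * x)
    {K : Subgroup G} (hK : K ≤ Y) : K.FG := by
  letI : CommGroup Y := { (inferInstance : Group Y) with
    mul_comm := fun a b => Subtype.ext (hc a a.2 b b.2) }
  haveI h1 : Group.FG Y := (Group.fg_iff_subgroup_fg Y).2 hY
  have h2 : (K.subgroupOf Y).FG := fg_type_comm _
  have h3 := fg_map Y.subtype h2
  rwa [map_subgroupOf_eq_of_le hK] at h3

theorem closure_comm {S : Set G} (hc : ∀ x ∈ S, ∀ y ∈ S, x * y = y * x) :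
    ∀ x ∈ closure S, ∀ y ∈ closure S, x * y = y * x := by
  have h := Subgroup.isMulCommutative_closure hc
  intro x hx y hy
  have := h.is_comm.comm ⟨x, hx⟩ ⟨y, hy⟩
  exact congrArg Subtype.val this

theorem fgmod_iff (N K : Subgroup G) [N.Normal] :
    FGmod N K ↔ (K.map (QuotientGroup.mk' N)).FG := by
  constructor
  · rintro ⟨S, hS, hSK, hK⟩
    have : K.map (QuotientGroup.mk' N) = (closure S).map (QuotientGroup.mk' N) := by
      apply le_antisymm
      · refine (Subgroup.map_mono hK).trans ?_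
        rw [Subgroup.map_sup]
        simp
      · exact Subgroup.map_mono ((closure_le _).2 hSK)
    rw [this]
    exact fg_map _ (fg_closure hS)
  · intro h
    obtain ⟨T, hT, hTf⟩ := (Subgroup.fg_iff _).1 h
    have hex : ∃ T ⊆ (QuotientGroup.mk' N) '' (K : Set G), T.Finite ∧
        closure T = K.map (QuotientGroup.mk' N) := by
      refine ⟨T, ?_, hTf, hT⟩
      intro t ht
      have : t ∈ K.map (QuotientGroup.mk' N) := hT ▸ subset_closure ht
      exact this
    obtain ⟨S, hSK, hSf, hS⟩ := Set.exists_subset_image_finite_and.1 hex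
    refine ⟨S, hSf, hSK, ?_⟩
    intro x hx
    have h1 : QuotientGroup.mk' N x ∈ (closure S).map (QuotientGroup.mk' N) := by
      rw [MonoidHom.map_closure, hS]
      exact ⟨x, hx, rfl⟩
    obtain ⟨c, hc, hcx⟩ := h1
    rw [mem_sup_of_normal_left]
    refine ⟨x * c⁻¹, ?_, c, hc, by group⟩
    have : (QuotientGroup.mk' N) (x * c⁻¹) = 1 := by
      rw [map_mul, map_inv, hcx]; group
    rwa [QuotientGroup.mk'_apply, QuotientGroup.eq_one_iff] at this

theorem mk_comm (N : Subgroup G) [N.Normal] {x y : G} (h : x * y * x⁻¹ * y⁻¹ ∈ N) :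
    (QuotientGroup.mk' N x) * (QuotientGroup.mk' N y)
      = (QuotientGroup.mk' N y) * (QuotientGroup.mk' N x) := by
  have : (QuotientGroup.mk' N) (x * y * x⁻¹ * y⁻¹) = 1 := by
    rwa [QuotientGroup.mk'_apply, QuotientGroup.eq_one_iff]
  simp only [map_mul, map_inv] at this
  rw [mul_inv_eq_one, mul_inv_eq_iff_eq_mul] at this
  exact this

/-- a subgroup that is generated, modulo `N`, by finitely many elements commuting modulo `N`
has all its subgroups finitely generated modulo `N`. -/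
theorem fgmod_of_comm (N : Subgroup G) [N.Normal] {Y : Set G} (hY : Y.Finite)
    (hc : ∀ x ∈ Y, ∀ y ∈ Y, x * y * x⁻¹ * y⁻¹ ∈ N) {K : Subgroup G}
    (hK : K ≤ N ⊔ closure Y) : FGmod N K := by
  rw [fgmod_iff]
  have h1 : K.map (QuotientGroup.mk' N) ≤ closure ((QuotientGroup.mk' N) '' Y) := by
    refine (Subgroup.map_mono hK).trans ?_
    rw [Subgroup.map_sup, MonoidHom.map_closure]
    simp
  refine comm_sub_fg (fg_closure (hY.image _)) (closure_comm ?_) h1
  rintro _ ⟨x, hx, rfl⟩ _ ⟨y, hy, rfl⟩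
  exact mk_comm N (hc x hx y hy)

/-- from finitely generated modulo N and finite generation of the intersection -/
theorem fg_of_fgmod (N K : Subgroup G) [N.Normal] (h1 : FGmod N K) (h2 : (N ⊓ K).FG) : K.FG := by
  obtain ⟨S, hS, hSK, hK⟩ := h1
  have : K = (N ⊓ K) ⊔ closure S := by
    apply le_antisymm
    · intro x hx
      obtain ⟨y, hy, z, hz, rfl⟩ := mem_sup_of_normal_left.1 (hK hx)
      have hzK : z ∈ K := (closure_le _).2 hSK hz
      have hyK : y ∈ K := by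
        have := K.mul_mem hx (K.inv_mem hzK)
        simpa using this
      exact mul_mem (mem_sup_left ⟨hy, hyK⟩) (mem_sup_right hz)
    · exact sup_le inf_le_right ((closure_le _).2 hSK)
  rw [this]
  exact h2.sup (fg_closure hS)

theorem cf_map {G' : Type*} [Group G'] (f : G →* G') {K K₀ : Subgroup G} (h : CF K K₀) :
    CF (K.map f) (K₀.map f) := by
  obtain ⟨T, hT, hTK, h⟩ := h
  refine ⟨f '' T, hT.image _, ?_, ?_⟩
  · rintro _ ⟨t, ht, rfl⟩
    exact ⟨t, hTK ht, rfl⟩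
  · rintro _ ⟨x, hx, rfl⟩
    obtain ⟨t, ht, htx⟩ := h x hx
    exact ⟨f t, ⟨t, ht, rfl⟩, ⟨_, htx, by simp⟩⟩

theorem cf_of_map {G' : Type*} [Group G'] (f : G →* G') {K K₀ : Subgroup G} (hle : K ≤ K₀)
    (hker : f.ker ⊓ K₀ ≤ K) (h : CF (K.map f) (K₀.map f)) : CF K K₀ := by
  obtain ⟨T, hT, hTK, h⟩ := h
  choose! r hr1 hr2 using fun t (ht : t ∈ T) => hTK ht
  refine ⟨r '' T, hT.image _, ?_, ?_⟩
  · rintro _ ⟨t, ht, rfl⟩
    exact hr1 t ht
  · intro x hx
    obtain ⟨t, ht, htx⟩ := h (f x) ⟨x, hx, rfl⟩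
    refine ⟨r t, ⟨t, ht, rfl⟩, ?_⟩
    obtain ⟨k, hk, hkx⟩ := htx
    have h1 : k⁻¹ * ((r t)⁻¹ * x) ∈ f.ker ⊓ K₀ := by
      refine Subgroup.mem_inf.2 ⟨MonoidHom.mem_ker.2 ?_,
        K₀.mul_mem (K₀.inv_mem (hle hk)) (K₀.mul_mem (K₀.inv_mem (hr1 t ht)) hx)⟩
      rw [map_mul, map_mul, map_inv, map_inv, hr2 t ht, hkx]
      group
    have h2 := mul_mem hk (hker h1)
    simpa using h2

theorem wf_type_comm {C : Type*} [CommGroup C] [h1 : Group.FG C] (F : Set (Subgroup C))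
    (hF : F.Nonempty) : ∃ K₀ ∈ F, ∀ K ∈ F, K ≤ K₀ → CF K K₀ := by
  have h2 : AddGroup.FG (Additive C) := (GroupFG.iff_add_fg).1 h1
  haveI h3 : Module.Finite ℤ (Additive C) := Module.Finite.iff_addGroup_fg.2 h2
  haveI h4 : IsNoetherian ℤ (Additive C) := inferInstance
  let sm : Subgroup C → Submodule ℤ (Additive C) :=
    fun K => AddSubgroup.toIntSubmodule (toAddSubgroup K)
  obtain ⟨K₀, hK₀, hmin⟩ : ∃ K₀ ∈ F, ∀ K ∈ F, Module.finrank ℤ (sm K₀) ≤ Module.finrank ℤ (sm K) := by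
    have hne : ((fun K => Module.finrank ℤ (sm K)) '' F).Nonempty := hF.image _
    obtain ⟨K₀, hK₀, h⟩ := Nat.sInf_mem hne
    refine ⟨K₀, hK₀, fun K hK => ?_⟩
    simp only at h
    rw [h]
    exact Nat.sInf_le ⟨K, hK, rfl⟩
  refine ⟨K₀, hK₀, fun K hK hle => ?_⟩
  have hsm : sm K ≤ sm K₀ := fun x hx => hle hx
  have hr := Submodule.finrank_quotient_add_finrank (R := ℤ) ((sm K).submoduleOf (sm K₀))
  have he : Module.finrank ℤ ((sm K).submoduleOf (sm K₀)) = Module.finrank ℤ (sm K) :=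
    (Submodule.submoduleOfEquivOfLe hsm).finrank_eq
  have h0 : Module.finrank ℤ (sm K₀ ⧸ (sm K).submoduleOf (sm K₀)) = 0 := by
    have := hmin K hK
    omega
  have ht := Module.finrank_eq_zero_iff_isTorsion.1 h0
  have hfin : Finite (sm K₀ ⧸ (sm K).submoduleOf (sm K₀)) := Module.finite_of_fg_torsion _ ht
  let r : (sm K₀ ⧸ (sm K).submoduleOf (sm K₀)) → C := fun q => Additive.toMul (Quotient.out q).1
  refine ⟨Set.range r, Set.finite_range r, ?_, ?_⟩
  · rintro _ ⟨q, rfl⟩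
    exact (Quotient.out q).2
  · intro x hx
    let x' : sm K₀ := ⟨Additive.ofMul x, hx⟩
    refine ⟨_, ⟨Submodule.Quotient.mk x', rfl⟩, ?_⟩
    have h5 : Submodule.Quotient.mk (p := (sm K).submoduleOf (sm K₀))
        (Quotient.out (Submodule.Quotient.mk (p := (sm K).submoduleOf (sm K₀)) x')) = Submodule.Quotient.mk x' :=
      Quotient.out_eq _
    rw [Submodule.Quotient.eq] at h5
    have h6 := Submodule.neg_mem _ h5
    rw [neg_sub] at h6
    have h7 : ((x' - Quotient.out (Submodule.Quotient.mk (p := (sm K).submoduleOf (sm K₀)) x') : sm K₀) : Additive C) ∈ sm K := h6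
    have h8 : Additive.toMul ((x' - Quotient.out (Submodule.Quotient.mk (p := (sm K).submoduleOf (sm K₀)) x') : sm K₀) : Additive C) ∈ K := h7
    have h9 : Additive.toMul ((x' - Quotient.out (Submodule.Quotient.mk (p := (sm K).submoduleOf (sm K₀)) x') : sm K₀) : Additive C) = (r (Submodule.Quotient.mk x'))⁻¹ * x := by
      simp only [AddSubgroupClass.coe_sub, toMul_sub]
      rw [div_eq_inv_mul]
      rfl
    rwa [h9] at h8

theorem wf_comm {Y : Subgroup G} (hY : Y.FG) (hc : ∀ x ∈ Y, ∀ y ∈ Y, x * y = y * x)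
    (F : Set (Subgroup G)) (hF : F.Nonempty) (hFY : ∀ K ∈ F, K ≤ Y) :
    ∃ K₀ ∈ F, ∀ K ∈ F, K ≤ K₀ → CF K K₀ := by
  letI : CommGroup Y := { (inferInstance : Group Y) with
    mul_comm := fun a b => Subtype.ext (hc a a.2 b b.2) }
  haveI h1 : Group.FG Y := (Group.fg_iff_subgroup_fg Y).2 hY
  obtain ⟨_, ⟨K₀, hK₀, rfl⟩, h⟩ := wf_type_comm ((fun K : Subgroup G => K.subgroupOf Y) '' F)
    (hF.image _)
  refine ⟨K₀, hK₀, fun K hK hle => ?_⟩
  have h2 := cf_map Y.subtype (h _ ⟨K, hK, rfl⟩ (fun x hx => hle hx))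
  rwa [map_subgroupOf_eq_of_le (hFY K hK), map_subgroupOf_eq_of_le (hFY K₀ hK₀)] at h2

theorem wf_comm_mod (N : Subgroup G) [N.Normal] {Y : Set G} (hY : Y.Finite)
    (hc : ∀ x ∈ Y, ∀ y ∈ Y, x * y * x⁻¹ * y⁻¹ ∈ N) {P : Subgroup G}
    (hP : P ≤ N ⊔ closure Y) (F : Set (Subgroup G)) (hF : F.Nonempty)
    (hFY : ∀ K ∈ F, N ⊓ P ≤ K ∧ K ≤ P) :
    ∃ K₀ ∈ F, ∀ K ∈ F, K ≤ K₀ → CF K K₀ := by
  have h1 : P.map (QuotientGroup.mk' N) ≤ closure ((QuotientGroup.mk' N) '' Y) := by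
    refine (Subgroup.map_mono hP).trans ?_
    rw [Subgroup.map_sup, MonoidHom.map_closure]
    simp
  obtain ⟨_, ⟨K₀, hK₀, rfl⟩, h⟩ := wf_comm (fg_closure (hY.image (QuotientGroup.mk' N)))
    (closure_comm (by
      rintro _ ⟨x, hx, rfl⟩ _ ⟨y, hy, rfl⟩
      exact mk_comm N (hc x hx y hy)))
    ((fun K : Subgroup G => K.map (QuotientGroup.mk' N)) '' F) (hF.image _)
    (by
      rintro _ ⟨K, hK, rfl⟩
      exact (Subgroup.map_mono (hFY K hK).2).trans h1)
  refine ⟨K₀, hK₀, fun K hK hle => ?_⟩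
  refine cf_of_map (QuotientGroup.mk' N) hle ?_ (h _ ⟨K, hK, rfl⟩ (Subgroup.map_mono hle))
  rw [QuotientGroup.ker_mk']
  exact (inf_le_inf_left _ (hFY K₀ hK₀).2).trans (hFY K hK).1

end MBP
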