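import Mathlib
import Pool.Agent.Helper753.MBP1

/-! Polycyclic pairs: minimal condition for infinite index, relative finite presentability. -/

namespace MBP

open Subgroup

variable {G : Type*} [Group G]

/-- `H / (N ⊓ H)` behaves like a polycyclic group -/
structure Good (N H : Subgroup G) : Prop where
  wf : ∀ F : Set (Subgroup G), F.Nonempty → (∀ K ∈ F, N ⊓ H ≤ K ∧ K ≤ H) →
    ∃ K₀ ∈ F, ∀ K ∈ F, K ≤ K₀ → CF K K₀
  fp : ∀ K ≤ H, K.FG → (N.subgroupOf K).IsFinitelyNormallyGenerated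
  ns : ∀ K ≤ H, FGmod N K

theorem good_top (H : Subgroup G) : Good ⊤ H where
  wf := by
    rintro F ⟨K₀, hK₀⟩ hF
    refine ⟨K₀, hK₀, fun K hK hle => ?_⟩
    have h1 : K = K₀ := by
      have h2 := (hF K hK)
      have h3 := (hF K₀ hK₀)
      rw [top_inf_eq] at h2 h3
      exact (le_antisymm h2.2 h2.1).trans (le_antisymm h3.1 h3.2)
    subst h1
    refine ⟨{1}, Set.finite_singleton _, ?_, ?_⟩
    · simp
    · intro x hx
      exact ⟨1, rfl, by simpa using hx⟩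
  fp := by
    intro K _ hK
    haveI : Group.FG K := (Group.fg_iff_subgroup_fg K).2 hK
    obtain ⟨S, hS, hSf⟩ := Group.fg_iff.1 this
    refine ⟨S, hSf, ?_⟩
    rw [eq_top_iff.2 (show (⊤ : Subgroup K) ≤ (⊤ : Subgroup G).subgroupOf K from
      fun x _ => trivial)]
    rw [eq_top_iff, ← hS]
    exact closure_le_normalClosure
  ns := by
    intro K _
    exact ⟨∅, Set.finite_empty, by simp, by simp⟩

theorem fp_ext {Γ : Type*} [Group Γ] [hΓ : Group.FG Γ] (N M : Subgroup Γ) [N.Normal] [M.Normal]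
    (hNM : N ≤ M) {Y : Set Γ} (hY : Y.Finite) (hYM : Y ⊆ M)
    (hcomm : ∀ x ∈ M, ∀ y ∈ M, x * y * x⁻¹ * y⁻¹ ∈ N) (hfg : M ≤ N ⊔ closure Y)
    (hM : M.IsFinitelyNormallyGenerated) : N.IsFinitelyNormallyGenerated := by
  obtain ⟨S, hS, hSM⟩ := hM
  obtain ⟨T, hT, hTf⟩ := Group.fg_iff.1 hΓ
  have hSM' : S ⊆ M := hSM ▸ subset_normalClosure
  have hY'M : Y ∪ S ⊆ M := Set.union_subset hYM hSM'
  have hw : ∀ t : Γ, ∀ y ∈ M, ∃ w ∈ closure (Y ∪ S), t * y * t⁻¹ * w⁻¹ ∈ N := by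
    intro t y hy
    have h1 : t * y * t⁻¹ ∈ M := Subgroup.Normal.conj_mem inferInstance y hy t
    obtain ⟨n, hn, c, hc, h2⟩ := mem_sup_of_normal_left.1 (hfg h1)
    refine ⟨c, Subgroup.closure_mono Set.subset_union_left hc, ?_⟩
    rw [← h2]
    simpa using hn
  choose! w hw1 hw2 using hw
  set R : Set Γ := Set.image2 (fun t y => t * y * t⁻¹ * (w t y)⁻¹) (T ∪ (fun x => x⁻¹) '' T) (Y ∪ S) ∪
    Set.image2 (fun x y => x * y * x⁻¹ * y⁻¹) (Y ∪ S) (Y ∪ S) with hR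
  have hRf : R.Finite :=
    ((hTf.union (hTf.image _)).image2 _ (hY.union hS)).union
      ((hY.union hS).image2 _ (hY.union hS))
  have hRN : R ⊆ N := by
    rintro x (⟨t, ht, y, hy, rfl⟩ | ⟨y, hy, z, hz, rfl⟩)
    · exact hw2 t y (hY'M hy)
    · exact hcomm y (hY'M hy) z (hY'M hz)
  set J : Subgroup Γ := normalClosure R with hJ
  have hJN : J ≤ N := normalClosure_le_normal hRN
  set P : Subgroup Γ := J ⊔ closure (Y ∪ S) with hP
  have hPconj : ∀ t ∈ T ∪ (fun x => x⁻¹) '' T, ∀ p ∈ P, t * p * t⁻¹ ∈ P := by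
    intro t ht
    have : P ≤ P.comap (MulAut.conj t).toMonoidHom := by
      rw [hP]
      refine sup_le ?_ ((closure_le _).2 ?_)
      · intro x hx
        exact mem_sup_left (Subgroup.Normal.conj_mem inferInstance x hx t)
      · intro y hy
        have h1 : t * y * t⁻¹ * (w t y)⁻¹ ∈ J :=
          subset_normalClosure (Or.inl ⟨t, ht, y, hy, rfl⟩)
        have h2 := mul_mem (mem_sup_left (T := closure (Y ∪ S)) h1)
          (mem_sup_right (S := J) (hw1 t y (hY'M hy)))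
        have h3 : t * y * t⁻¹ * (w t y)⁻¹ * w t y = t * y * t⁻¹ := by group
        rw [h3] at h2
        exact h2
    intro p hp
    exact this hp
  have hnorm : ∀ x : Γ, (∀ p ∈ P, x * p * x⁻¹ ∈ P) ∧ (∀ p ∈ P, x⁻¹ * p * x⁻¹⁻¹ ∈ P) := by
    intro x
    have hx : x ∈ closure T := hT ▸ Subgroup.mem_top x
    induction hx using closure_induction with
    | mem x hx =>
      exact ⟨hPconj x (Or.inl hx), hPconj x⁻¹ (Or.inr ⟨x, hx, rfl⟩)⟩
    | one => exact ⟨fun p hp => by simpa using hp, fun p hp => by simpa using hp⟩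
    | mul x y _ _ ih1 ih2 =>
      refine ⟨fun p hp => ?_, fun p hp => ?_⟩
      · have := ih1.1 _ (ih2.1 p hp)
        have h : x * (y * p * y⁻¹) * x⁻¹ = x * y * p * (x * y)⁻¹ := by group
        rwa [h] at this
      · have := ih2.2 _ (ih1.2 p hp)
        have h : y⁻¹ * (x⁻¹ * p * x⁻¹⁻¹) * y⁻¹⁻¹ = (x * y)⁻¹ * p * (x * y)⁻¹⁻¹ := by group
        rwa [h] at this
    | inv x _ ih =>
      exact ⟨ih.2, fun p hp => by rw [inv_inv]; exact ih.1 p hp⟩
  haveI hPn : P.Normal := ⟨fun p hp x => (hnorm x).1 p hp⟩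
  have hMP : M ≤ P := by
    rw [← hSM]
    exact normalClosure_le_normal (fun s hs => mem_sup_right (subset_closure (Or.inr hs)))
  obtain ⟨R', hR', hR'N, hNR'⟩ := fgmod_of_comm J (hY.union hS)
    (fun x hx y hy => subset_normalClosure (Or.inr ⟨x, hx, y, hy, rfl⟩)) (hNM.trans hMP)
  refine ⟨R ∪ R', hRf.union hR', le_antisymm (normalClosure_le_normal (Set.union_subset hRN hR'N)) ?_⟩
  refine hNR'.trans (sup_le (normalClosure_mono Set.subset_union_left) ?_)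
  exact (Subgroup.closure_mono Set.subset_union_right).trans closure_le_normalClosure

theorem cf_inter {X K₂ K₃ : Subgroup G} (h : CF X K₃) (hle : K₂ ≤ K₃) : CF (X ⊓ K₂) K₂ := by
  classical
  obtain ⟨T, hT, hTK, h⟩ := h
  have hex : ∀ t : G, ∃ r ∈ K₂, (∃ x ∈ K₂, t⁻¹ * x ∈ X) → t⁻¹ * r ∈ X := by
    intro t
    by_cases ht : ∃ x ∈ K₂, t⁻¹ * x ∈ X
    · obtain ⟨x, hx, hxt⟩ := ht
      exact ⟨x, hx, fun _ => hxt⟩
    · exact ⟨1, K₂.one_mem, fun h => absurd h ht⟩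
  choose r hr1 hr2 using hex
  refine ⟨r '' T, hT.image _, ?_, ?_⟩
  · rintro _ ⟨t, _, rfl⟩
    exact hr1 t
  · intro x hx
    obtain ⟨t, ht, htx⟩ := h x (hle hx)
    refine ⟨r t, ⟨t, ht, rfl⟩, Subgroup.mem_inf.2 ⟨?_, K₂.mul_mem (K₂.inv_mem (hr1 t)) hx⟩⟩
    have h1 := hr2 t ⟨x, hx, htx⟩
    have h2 := X.mul_mem (X.inv_mem h1) htx
    have h3 : (t⁻¹ * r t)⁻¹ * (t⁻¹ * x) = (r t)⁻¹ * x := by group
    rwa [h3] at h2

theorem fgmod_mono {N N' K : Subgroup G} (h : FGmod N K) (hle : N ≤ N') : FGmod N' K := by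
  obtain ⟨S, hS, hSK, hK⟩ := h
  exact ⟨S, hS, hSK, hK.trans (sup_le_sup_right hle _)⟩

theorem good_ext (N M H : Subgroup G) [N.Normal] [M.Normal] (hNM : N ≤ M) (hG : Good M H)
    (hcomm : ∀ x ∈ M ⊓ H, ∀ y ∈ M ⊓ H, x * y * x⁻¹ * y⁻¹ ∈ N) (hfg : FGmod N (M ⊓ H)) :
    Good N H := by
  obtain ⟨Y, hY, hYM, hMY⟩ := hfg
  have hYc : ∀ x ∈ Y, ∀ y ∈ Y, x * y * x⁻¹ * y⁻¹ ∈ N :=
    fun x hx y hy => hcomm x (hYM hx) y (hYM hy)
  have hsub : ∀ K ≤ H, FGmod N (M ⊓ K) := fun K hK =>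
    fgmod_of_comm N hY hYc ((inf_le_inf_left M hK).trans hMY)
  refine ⟨?_, ?_, ?_⟩
  · intro F hF hFH
    obtain ⟨_, ⟨K₁, hK₁, rfl⟩, h1⟩ := hG.wf ((fun K => H ⊓ (M ⊔ K)) '' F) (hF.image _) (by
      rintro _ ⟨K, hK, rfl⟩
      exact ⟨le_inf inf_le_right (inf_le_left.trans le_sup_left), inf_le_left⟩)
    obtain ⟨_, ⟨K₂, ⟨hK₂, hK₂₁⟩, rfl⟩, h2⟩ := wf_comm_mod N hY hYc hMY
      ((fun K => M ⊓ K) '' {K ∈ F | K ≤ K₁}) (Set.Nonempty.image _ ⟨K₁, hK₁, le_rfl⟩) (by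
      rintro _ ⟨K, ⟨hK, _⟩, rfl⟩
      refine ⟨le_inf (inf_le_left.trans hNM) ?_, inf_le_inf_left _ (hFH K hK).2⟩
      exact (inf_le_inf_left N inf_le_right).trans (hFH K hK).1)
    refine ⟨K₂, hK₂, fun K hK hle => ?_⟩
    have h3 := h1 _ ⟨K, hK, rfl⟩ (inf_le_inf_left _ (sup_le_sup_left (hle.trans hK₂₁) _))
    have h4 := cf_inter h3 (le_inf (hFH K₂ hK₂).2 (hK₂₁.trans le_sup_right))
    have h5 := h2 _ ⟨K, ⟨hK, hle.trans hK₂₁⟩, rfl⟩ (inf_le_inf_left _ hle)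
    obtain ⟨T₁, hT₁, hTK₁, h4⟩ := h4
    obtain ⟨T₂, hT₂, hTK₂, h5⟩ := h5
    refine ⟨Set.image2 (fun a b => a * b) T₁ T₂, hT₁.image2 _ hT₂, ?_, ?_⟩
    · rintro _ ⟨a, ha, b, hb, rfl⟩
      exact K₂.mul_mem (hTK₁ ha) (hTK₂ hb).2
    · intro x hx
      obtain ⟨t, ht, htx⟩ := h4 x hx
      obtain ⟨m, hm, k, hk, hmk⟩ := mem_sup_of_normal_left.1 (Subgroup.mem_inf.1 (Subgroup.mem_inf.1 htx).1).2
      have hmK₂ : m ∈ K₂ := by
        have h6 := K₂.mul_mem (Subgroup.mem_inf.1 htx).2 (K₂.inv_mem (hle hk))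
        rw [← hmk] at h6
        simpa using h6
      obtain ⟨s, hs, hsm⟩ := h5 m (Subgroup.mem_inf.2 ⟨hm, hmK₂⟩)
      refine ⟨t * s, ⟨t, ht, s, hs, rfl⟩, ?_⟩
      have h7 := K.mul_mem (Subgroup.mem_inf.1 hsm).2 hk
      have h8 : s⁻¹ * m * k = (t * s)⁻¹ * x := by
        rw [mul_assoc, hmk]; group
      rwa [h8] at h7
  · intro K hK hKfg
    haveI : Group.FG K := (Group.fg_iff_subgroup_fg K).2 hKfg
    obtain ⟨Z, hZ, hZM, hMZ⟩ := hsub K hK
    have hZK : Z ⊆ K := fun z hz => (hZM hz).2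
    have hinj : Function.Injective (Subtype.val : K → G) := Subtype.val_injective
    refine fp_ext (N.subgroupOf K) (M.subgroupOf K) (fun x hx => hNM hx)
      (Y := (Subtype.val : K → G) ⁻¹' Z) (hZ.preimage hinj.injOn) (fun z hz => (hZM hz).1) ?_ ?_
      (hG.fp K hK hKfg)
    · intro x hx y hy
      exact hcomm x ⟨hx, hK x.2⟩ y ⟨hy, hK y.2⟩
    · intro x hx
      obtain ⟨n, hn, c, hc, hnc⟩ := mem_sup_of_normal_left.1 (hMZ ⟨hx, x.2⟩)
      have h1 : closure Z = (closure ((Subtype.val : K → G) ⁻¹' Z)).map K.subtype := by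
        rw [MonoidHom.map_closure]
        congr 1
        ext z
        constructor
        · intro hz
          exact ⟨⟨z, hZK hz⟩, hz, rfl⟩
        · rintro ⟨z, hz, rfl⟩
          exact hz
      rw [h1] at hc
      obtain ⟨c, hc, rfl⟩ := hc
      have h2 : x * c⁻¹ ∈ N.subgroupOf K := by
        show K.subtype x * (K.subtype c)⁻¹ ∈ N
        rw [← hnc]
        simpa using hn
      have h3 := mul_mem (mem_sup_left (T := closure ((Subtype.val : K → G) ⁻¹' Z)) h2)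
        (mem_sup_right (S := N.subgroupOf K) hc)
      simpa using h3
  · intro K hK
    obtain ⟨S₁, hS₁, hS₁K, h1⟩ := hG.ns K hK
    obtain ⟨S₂, hS₂, hS₂K, h2⟩ := hsub K hK
    refine ⟨S₁ ∪ S₂, hS₁.union hS₂, Set.union_subset hS₁K (fun x hx => (hS₂K hx).2), ?_⟩
    intro x hx
    obtain ⟨m, hm, c, hc, rfl⟩ := mem_sup_of_normal_left.1 (h1 hx)
    have hcK : c ∈ K := (closure_le K).2 hS₁K hc
    have hmK : m ∈ K := by
      have := K.mul_mem hx (K.inv_mem hcK)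
      simpa using this
    have h3 := h2 (Subgroup.mem_inf.2 ⟨hm, hmK⟩)
    exact mul_mem (sup_le_sup_left (Subgroup.closure_mono Set.subset_union_right) N h3)
      (mem_sup_right (Subgroup.closure_mono Set.subset_union_left hc))

/-- quotients which are polycyclic give good pairs -/
theorem good_of_polycyclic (L : Subgroup G) [L.Normal] (hs : IsSolvable (G ⧸ L))
    (hns : ∀ K : Subgroup (G ⧸ L), K.FG) (H : Subgroup G) : Good L H := by
  obtain ⟨n, hn⟩ := hs.solvable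
  have key : ∀ i, Good ((derivedSeries (G ⧸ L) i).comap (QuotientGroup.mk' L)) H := by
    intro i
    induction i with
    | zero =>
      rw [derivedSeries_zero, comap_top]
      exact good_top H
    | succ i ih =>
      refine good_ext _ _ H ?_ ih ?_ ?_
      · exact comap_mono (derivedSeries_succ (G ⧸ L) i ▸ commutator_le_left _ _)
      · intro x hx y hy
        have h1 := (Subgroup.mem_inf.1 hx).1
        have h2 := (Subgroup.mem_inf.1 hy).1
        rw [mem_comap] at h1 h2 ⊢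
        rw [derivedSeries_succ]
        have := commutator_mem_commutator h1 h2
        simpa [commutatorElement_def] using this
      · refine fgmod_mono ((fgmod_iff L _).2 (hns _)) ?_
        intro x hx
        rw [mem_comap]
        have : (QuotientGroup.mk' L) x = 1 := by
          rwa [QuotientGroup.mk'_apply, QuotientGroup.eq_one_iff]
        rw [this]
        exact one_mem _
  have h := key n
  rw [hn] at h
  have h2 : (⊥ : Subgroup (G ⧸ L)).comap (QuotientGroup.mk' L) = L := by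
    rw [MonoidHom.comap_bot, QuotientGroup.ker_mk']
  rwa [h2] at h

end MBP
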