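import Mathlib

/-! Abelian groups of automorphisms of f.g. abelian groups are f.g.; proof by helper429. -/

namespace MBP

set_option linter.style.haveILetI false

namespace UFG9687

theorem fin_of_injective {U V : Type*} [CommGroup U] [CommGroup V] (f : U →* V)
    (hf : Function.Injective f) (hV : Module.Finite ℤ (Additive V)) :
    Module.Finite ℤ (Additive U) := by
  exact Module.Finite.of_injective (MonoidHom.toAdditive f).toIntLinearMap hf

theorem fin_ext {U V M : Type*} [CommGroup U] [CommGroup V] [AddCommGroup M]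
    (f : U →* V) (hV : Module.Finite ℤ (Additive V)) (hM : Module.Finite ℤ M)
    (g : U → M) (hg1 : ∀ u v, f u = 1 → f v = 1 → g (u * v) = g u + g v)
    (hg2 : ∀ u, f u = 1 → g u = 0 → u = 1) :
    Module.Finite ℤ (Additive U) := by
  rw [Module.finite_def]
  refine Submodule.fg_of_fg_map_of_fg_inf_ker
    (MonoidHom.toAdditive f).toIntLinearMap (IsNoetherian.noetherian _) ?_
  rw [inf_of_le_right le_top]
  let K := LinearMap.ker (MonoidHom.toAdditive f).toIntLinearMap
  have hK : ∀ x : K, f (Additive.toMul x.1) = 1 := by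
    intro x
    have := x.2
    exact this
  let h : K →+ M := AddMonoidHom.mk' (fun x => g (Additive.toMul x.1)) (by
    intro x y
    exact hg1 _ _ (hK x) (hK y))
  have hinj : Function.Injective h.toIntLinearMap := by
    rw [injective_iff_map_eq_zero]
    intro x hx
    have h1 := hg2 _ (hK x) hx
    apply Subtype.ext
    exact h1
  have : Module.Finite ℤ K := Module.Finite.of_injective h.toIntLinearMap hinj
  exact Module.Finite.iff_fg.mp this

theorem fin_of_finite {U : Type*} [CommGroup U] [Finite U] : Module.Finite ℤ (Additive U) := by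
  infer_instance

/-- domain case, characteristic zero -/
theorem units_domain0 (R K : Type*) [CommRing R] [IsDomain R] [Module.Finite ℤ R] [CharZero R]
    [Field K] [Algebra R K] [IsFractionRing R K] :
    Module.Finite ℤ (Additive Rˣ) := by
  haveI : CharZero K := by
    exact IsFractionRing.charZero_of_isFractionRing R (K := K)
  haveI : FaithfulSMul ℤ R := inferInstance
  haveI : Algebra.IsIntegral ℤ R := inferInstance
  haveI : FiniteDimensional ℚ K := by
    haveI : IsLocalization (Algebra.algebraMapSubmonoid R (nonZeroDivisors ℤ)) K :=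
      inferInstance
    exact Module.Finite.of_isLocalization ℤ R (nonZeroDivisors ℤ)
  haveI : NumberField K := NumberField.mk
  let j : R →* NumberField.RingOfIntegers K :=
    NumberField.RingOfIntegers.restrict_monoidHom (algebraMap R K : R →* K) (by
      intro x
      have : IsIntegral ℤ x := Algebra.IsIntegral.isIntegral x
      exact this.algebraMap)
  have hj : Function.Injective j := by
    intro x y hxy
    have := congrArg (fun z : NumberField.RingOfIntegers K => (z : K)) hxy
    exact IsFractionRing.injective R K this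
  exact fin_of_injective (Units.map j) (Units.map_injective hj) inferInstance

/-- domain case -/
theorem units_domain (R : Type*) [CommRing R] [IsDomain R] [Module.Finite ℤ R] :
    Module.Finite ℤ (Additive Rˣ) := by
  by_cases hc : CharZero R
  · exact units_domain0 R (FractionRing R)
  · haveI : Finite R := by
      apply Module.finite_of_fg_torsion (M := R)
      obtain ⟨p, hp⟩ := CharP.exists R
      have hp0 : p ≠ 0 := by
        rintro rfl
        exact hc (CharP.charP_to_charZero R)
      intro x
      refine ⟨⟨(p : ℤ), ?_⟩, ?_⟩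
      · rw [mem_nonZeroDivisors_iff_ne_zero]
        exact_mod_cast hp0
      · change (p : ℤ) • x = 0
        rw [zsmul_eq_mul]
        simp
    infer_instance

theorem units_quot (R : Type*) [CommRing R] [Module.Finite ℤ R] (I : Ideal R) :
    Module.Finite ℤ (Additive (R ⧸ I)ˣ) := by
  haveI : IsNoetherianRing R := by
    have h1 : IsNoetherian ℤ R := inferInstance
    exact isNoetherian_of_tower ℤ h1
  have wf : WellFoundedGT (Ideal R) := inferInstance
  induction I using WellFoundedGT.induction with
  | ind I ih =>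
  have hfin : Module.Finite ℤ (R ⧸ I) := inferInstance
  by_cases hI : I.IsPrime
  · exact units_domain (R ⧸ I)
  by_cases hT : I = ⊤
  · subst hT
    haveI : Subsingleton (R ⧸ (⊤ : Ideal R)) := Ideal.Quotient.subsingleton_iff.mpr rfl
    haveI : Finite (R ⧸ (⊤ : Ideal R)) := inferInstance
    infer_instance
  have : ∃ a b : R, a ∉ I ∧ b ∉ I ∧ a * b ∈ I := by
    by_contra hcon
    push Not at hcon
    apply hI
    refine ⟨hT, ?_⟩
    intro x y hxy
    by_contra h
    push Not at h
    exact hcon x y h.1 h.2 hxy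
  obtain ⟨a, b, ha, hb, hab⟩ := this
  let I1 : Ideal R := I ⊔ Ideal.span {a}
  let I2 : Ideal R := I ⊔ Ideal.span {b}
  have h1 : I < I1 := by
    refine lt_of_le_of_ne le_sup_left ?_
    intro h
    apply ha
    rw [h]
    exact Ideal.mem_sup_right (Ideal.mem_span_singleton_self a)
  have h2 : I < I2 := by
    refine lt_of_le_of_ne le_sup_left ?_
    intro h
    apply hb
    rw [h]
    exact Ideal.mem_sup_right (Ideal.mem_span_singleton_self b)
  have hf1 := ih I1 h1
  have hf2 := ih I2 h2
  let f1 : (R ⧸ I)ˣ →* (R ⧸ I1)ˣ := Units.map (Ideal.Quotient.factor h1.le : _ →* _)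
  let f2 : (R ⧸ I)ˣ →* (R ⧸ I2)ˣ := Units.map (Ideal.Quotient.factor h2.le : _ →* _)
  have hprod : Module.Finite ℤ (Additive ((R ⧸ I1)ˣ × (R ⧸ I2)ˣ)) := by
    refine fin_ext (M := Additive (R ⧸ I2)ˣ) (MonoidHom.fst (R ⧸ I1)ˣ (R ⧸ I2)ˣ) hf1 hf2
      (fun u => Additive.ofMul u.2) ?_ ?_
    · intro u v _ _
      rfl
    · intro u hu hu2
      exact Prod.ext hu hu2
  have key : ∀ z ∈ I1, ∀ w ∈ I2, z * w ∈ I := by
    intro z hz w hw
    rw [Submodule.mem_sup] at hz hw
    obtain ⟨i, hi, y, hy, rfl⟩ := hz
    obtain ⟨i', hi', y', hy', rfl⟩ := hw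
    rw [Ideal.mem_span_singleton'] at hy hy'
    obtain ⟨c, rfl⟩ := hy
    obtain ⟨d, rfl⟩ := hy'
    have e : (i + c * a) * (i' + d * b) = i * (i' + d * b) + (c * a) * i' + (c * d) * (a * b) := by
      ring
    rw [e]
    exact I.add_mem (I.add_mem (I.mul_mem_right _ hi) (I.mul_mem_left _ hi')) (I.mul_mem_left _ hab)
  refine fin_ext (f1.prod f2) hprod hfin (fun u => (u : R ⧸ I) - 1) ?_ ?_
  · intro u v hu hv
    have hu1 : f1 u = 1 := congrArg Prod.fst hu
    have hv2 : f2 v = 1 := congrArg Prod.snd hv
    have hu1' : Ideal.Quotient.factor h1.le (u : R ⧸ I) = 1 := congrArg Units.val hu1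
    have hv2' : Ideal.Quotient.factor h2.le (v : R ⧸ I) = 1 := congrArg Units.val hv2
    obtain ⟨x, hx⟩ := Ideal.Quotient.mk_surjective (u : R ⧸ I)
    obtain ⟨y, hy⟩ := Ideal.Quotient.mk_surjective (v : R ⧸ I)
    have hx1 : x - 1 ∈ I1 := by
      rw [← Ideal.Quotient.eq_zero_iff_mem, map_sub, map_one, sub_eq_zero]
      rw [← hx, Ideal.Quotient.factor_mk] at hu1'
      exact hu1'
    have hy1 : y - 1 ∈ I2 := by
      rw [← Ideal.Quotient.eq_zero_iff_mem, map_sub, map_one, sub_eq_zero]
      rw [← hy, Ideal.Quotient.factor_mk] at hv2'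
      exact hv2'
    have hk := key _ hx1 _ hy1
    rw [← Ideal.Quotient.eq_zero_iff_mem] at hk
    simp only [map_mul, map_sub, map_one, hx, hy] at hk
    have : ((u * v : (R ⧸ I)ˣ) : R ⧸ I) - 1 = ((u : R ⧸ I) - 1) * ((v : R ⧸ I) - 1)
        + (((u : R ⧸ I) - 1) + ((v : R ⧸ I) - 1)) := by
      rw [Units.val_mul]
      ring
    rw [this, hk, zero_add]
  · intro u _ hu
    apply Units.ext
    exact sub_eq_zero.mp hu

theorem units_fg (R : Type*) [CommRing R] [Module.Finite ℤ R] :
    Module.Finite ℤ (Additive Rˣ) := by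
  have h := units_quot R ⊥
  refine fin_of_injective (Units.map (Ideal.Quotient.mk (⊥ : Ideal R) : R →* _)) ?_ h
  apply Units.map_injective
  intro x y hxy
  have : x - y ∈ (⊥ : Ideal R) := Ideal.Quotient.eq.mp hxy
  rw [Ideal.mem_bot] at this
  exact sub_eq_zero.mp this

end UFG9687

/-- abelian groups of automorphisms of a f.g. abelian group are f.g. (subgroup version) -/
theorem comm_aut_fg {G : Type*} [Group G] (A L : Subgroup G) (hAfg : A.FG)
    (hAcomm : ∀ a ∈ A, ∀ b ∈ A, a * b = b * a)
    (hnorm : ∀ l ∈ L, ∀ a ∈ A, l * a * l⁻¹ ∈ A)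
    (hcomm : ∀ l ∈ L, ∀ m ∈ L, ∀ a ∈ A, (l * m) * a * (l * m)⁻¹ = (m * l) * a * (m * l)⁻¹) :
    ∃ S : Set G, S.Finite ∧ S ⊆ L ∧
      ∀ l ∈ L, ∃ c ∈ Subgroup.closure S, ∀ a ∈ A, l * a * l⁻¹ = c * a * c⁻¹ := by
  classical
  letI : CommGroup A := { (inferInstance : Group A) with
    mul_comm := fun a b => Subtype.ext (hAcomm a.1 a.2 b.1 b.2) }
  have hM : Module.Finite ℤ (Additive A) := by
    rw [Module.Finite.iff_addGroup_fg, ← GroupFG.iff_add_fg]
    exact (Group.fg_iff_subgroup_fg A).mpr hAfg
  let E := Module.End ℤ (Additive A)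
  have hE : IsNoetherian ℤ E := isNoetherian_linearMap ℤ (Additive A) (Additive A)
  -- conjugation
  let cj : L → (A →* A) := fun l =>
    { toFun := fun a => ⟨l.1 * a.1 * l.1⁻¹, hnorm l.1 l.2 a.1 a.2⟩
      map_one' := by
        apply Subtype.ext
        simp
      map_mul' := by
        intro a b
        apply Subtype.ext
        simp }
  let ρ : L →* E :=
    { toFun := fun l => (MonoidHom.toAdditive (cj l)).toIntLinearMap
      map_one' := by
        apply LinearMap.ext
        intro a
        change Additive.ofMul (cj 1 (Additive.toMul a)) = a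
        have : cj 1 (Additive.toMul a) = Additive.toMul a := by
          apply Subtype.ext
          simp [cj]
        rw [this]
        rfl
      map_mul' := by
        intro l m
        apply LinearMap.ext
        intro a
        change Additive.ofMul (cj (l * m) (Additive.toMul a)) =
          Additive.ofMul (cj l (cj m (Additive.toMul a)))
        congr 1
        apply Subtype.ext
        simp [cj, mul_assoc] }
  have hρ : ∀ l : L, ∀ a : A, ((Additive.toMul (ρ l (Additive.ofMul a)) : A) : G)
      = l.1 * a.1 * l.1⁻¹ := by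
    intro l a
    rfl
  have hρc : ∀ l m : L, ρ l * ρ m = ρ m * ρ l := by
    intro l m
    rw [← map_mul, ← map_mul]
    apply LinearMap.ext
    intro a
    have : Additive.toMul (ρ (l * m) a) = Additive.toMul (ρ (m * l) a) := by
      apply Subtype.ext
      exact hcomm l.1 l.2 m.1 m.2 _ (Additive.toMul a).2
    exact this
  have hcom : ∀ x ∈ Set.range ρ, ∀ y ∈ Set.range ρ, x * y = y * x := by
    rintro _ ⟨l, rfl⟩ _ ⟨m, rfl⟩
    exact hρc l m
  letI : CommRing (Algebra.adjoin ℤ (Set.range ρ)) := Algebra.adjoinCommRingOfComm ℤ hcom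
  have hR : Module.Finite ℤ (Algebra.adjoin ℤ (Set.range ρ)) := by
    have : IsNoetherian ℤ (Subalgebra.toSubmodule (Algebra.adjoin ℤ (Set.range ρ))) :=
      inferInstance
    have h2 : Module.Finite ℤ (Subalgebra.toSubmodule (Algebra.adjoin ℤ (Set.range ρ))) :=
      inferInstance
    exact h2
  have hU := UFG9687.units_fg (Algebra.adjoin ℤ (Set.range ρ))
  let ρ' : L →* Algebra.adjoin ℤ (Set.range ρ) :=
    ρ.codRestrict (Algebra.adjoin ℤ (Set.range ρ)) (fun l => Algebra.subset_adjoin ⟨l, rfl⟩)
  let φ : L →* (Algebra.adjoin ℤ (Set.range ρ))ˣ := ρ'.toHomUnits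
  have hφ : ∀ l m : L, φ l = φ m → ρ l = ρ m := by
    intro l m h
    have h1 : ((φ l : _) : Algebra.adjoin ℤ (Set.range ρ)) = φ m := congrArg Units.val h
    exact congrArg Subtype.val h1
  have hrange : φ.range.FG := by
    rw [Subgroup.fg_iff_add_fg]
    have h1 : IsNoetherian ℤ (Additive (Algebra.adjoin ℤ (Set.range ρ))ˣ) := inferInstance
    have h2 := h1.noetherian (AddSubgroup.toIntSubmodule (Subgroup.toAddSubgroup φ.range))
    rw [Submodule.fg_iff_addSubgroup_fg] at h2
    exact h2
  obtain ⟨T, hT⟩ := hrange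
  have hlift : ∀ t ∈ T, ∃ l : L, φ l = t := by
    intro t ht
    have : t ∈ φ.range := by
      rw [← hT]
      exact Subgroup.subset_closure ht
    exact this
  choose! g hg using hlift
  refine ⟨(fun t => ((g t : L) : G)) '' (T : Set _), T.finite_toSet.image _, ?_, ?_⟩
  · rintro _ ⟨t, _, rfl⟩
    exact (g t).2
  · intro l hl
    have h1 : φ ⟨l, hl⟩ ∈ φ.range := ⟨_, rfl⟩
    rw [← hT] at h1
    have h2 : Subgroup.closure (T : Set (Algebra.adjoin ℤ (Set.range ρ))ˣ) ≤
        (Subgroup.closure (g '' (T : Set _))).map φ := by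
      rw [Subgroup.closure_le]
      intro t ht
      exact ⟨g t, Subgroup.subset_closure ⟨t, ht, rfl⟩, hg t ht⟩
    obtain ⟨m, hm, hm2⟩ := h2 h1
    refine ⟨m.1, ?_, ?_⟩
    · have h3 : (Subgroup.closure (g '' (T : Set _))).map L.subtype =
          Subgroup.closure ((fun t => ((g t : L) : G)) '' (T : Set _)) := by
        rw [MonoidHom.map_closure, Set.image_image]
        rfl
      rw [← h3]
      exact ⟨m, hm, rfl⟩
    · intro a ha
      have h4 := hφ _ _ hm2
      have h5 := hρ m ⟨a, ha⟩
      have h6 := hρ ⟨l, hl⟩ ⟨a, ha⟩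
      rw [h4] at h5
      rw [h5] at h6
      exact h6.symm

end MBP
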