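import Mathlib
import Pool.Agent.Helper753.MBP2
import Pool.Agent.Helper753.MBPU

/-! The central lemma `S0`, existence of bad elements, and the case of finitely generated `A ⊓ H`. -/

namespace MBP

open Subgroup

variable {G : Type*} [Group G]

theorem nc_of_fp {N K : Subgroup G} (h : (N.subgroupOf K).IsFinitelyNormallyGenerated) :
    ∃ S : Set G, S.Finite ∧ S ⊆ (N ⊓ K : Subgroup G) ∧
      N ⊓ K ≤ closure {x | ∃ k ∈ K, ∃ s ∈ S, x = k * s * k⁻¹} := by
  obtain ⟨S, hS, hSN⟩ := h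
  refine ⟨(fun x : K => (x : G)) '' S, hS.image _, ?_, ?_⟩
  · rintro _ ⟨s, hs, rfl⟩
    have : s ∈ N.subgroupOf K := hSN ▸ subset_normalClosure hs
    exact ⟨this, s.2⟩
  · intro x hx
    have h1 : (⟨x, hx.2⟩ : K) ∈ normalClosure S := by
      rw [hSN]
      exact hx.1
    have h2 : ∀ y : K, y ∈ normalClosure S → (y : G) ∈ closure {x | ∃ k ∈ K, ∃ s ∈ (fun x : K => (x : G)) '' S, x = k * s * k⁻¹} := by
      intro y hy
      unfold normalClosure at hy
      induction hy using closure_induction with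
      | mem y hy =>
        obtain ⟨s, hs, hy⟩ := Group.mem_conjugatesOfSet_iff.1 hy
        obtain ⟨c, rfl⟩ := isConj_iff.1 hy
        exact subset_closure ⟨c, c.2, s, ⟨s, hs, rfl⟩, rfl⟩
      | one => exact one_mem _
      | mul a b _ _ h1 h2 => exact mul_mem h1 h2
      | inv a _ h1 => exact inv_mem h1
    exact h2 _ h1

theorem fg_ext {P : Type*} [Group P] (K : Subgroup G) (φ : K →* P) (hr : φ.range.FG)
    (hk : (φ.ker.map K.subtype).FG) : K.FG := by
  obtain ⟨T, hT, hTf⟩ := (Subgroup.fg_iff _).1 hr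
  have hex : ∃ T ⊆ φ '' (Set.univ : Set K), T.Finite ∧ closure T = φ.range := by
    refine ⟨T, ?_, hTf, hT⟩
    intro t ht
    have : t ∈ φ.range := hT ▸ subset_closure ht
    obtain ⟨x, rfl⟩ := this
    exact ⟨x, trivial, rfl⟩
  obtain ⟨S, _, hSf, hS⟩ := Set.exists_subset_image_finite_and.1 hex
  have : K = closure ((fun x : K => (x : G)) '' S) ⊔ φ.ker.map K.subtype := by
    apply le_antisymm
    · intro x hx
      have h1 : φ ⟨x, hx⟩ ∈ (closure S).map φ := by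
        rw [MonoidHom.map_closure, hS]
        exact ⟨_, rfl⟩
      obtain ⟨c, hc, hcx⟩ := h1
      have h2 : (c : G) ∈ closure ((fun x : K => (x : G)) '' S) := by
        have : (c : G) ∈ (closure S).map K.subtype := ⟨c, hc, rfl⟩
        rwa [MonoidHom.map_closure] at this
      have h3 : (c : G)⁻¹ * x ∈ φ.ker.map K.subtype := by
        refine ⟨c⁻¹ * ⟨x, hx⟩, ?_, rfl⟩
        show c⁻¹ * ⟨x, hx⟩ ∈ φ.ker
        rw [MonoidHom.mem_ker, map_mul, map_inv, hcx]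
        group
      have h4 := mul_mem (mem_sup_left (T := φ.ker.map K.subtype) h2)
        (mem_sup_right (S := closure ((fun x : K => (x : G)) '' S)) h3)
      simpa using h4
    · refine sup_le ((closure_le _).2 ?_) ?_
      · rintro _ ⟨x, _, rfl⟩
        exact x.2
      · rintro _ ⟨x, _, rfl⟩
        exact x.2
  rw [this]
  exact (fg_closure (hSf.image _)).sup hk

theorem fg_of_hom_central {K Z : Subgroup G} {f : G} (hZ : Z.FG)
    (hZc : ∀ z ∈ Z, ∀ w ∈ Z, z * w = w * z) (hcen : ∀ k ∈ K, ∀ z ∈ Z, k * z = z * k)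
    (hf : ∀ k ∈ K, k * f * k⁻¹ * f⁻¹ ∈ Z) (hC : (K ⊓ centralizer {f}).FG) : K.FG := by
  let φ : K →* G :=
    { toFun := fun k => k * f * (k : G)⁻¹ * f⁻¹
      map_one' := by simp
      map_mul' := by
        intro h k
        have h1 := hcen h h.2 _ (hf k k.2)
        have h2 := hZc _ (hf k k.2) _ (hf h h.2)
        calc ((h * k : K) : G) * f * ((h * k : K) : G)⁻¹ * f⁻¹
            = (h : G) * ((k : G) * f * (k : G)⁻¹ * f⁻¹) * (h : G)⁻¹ * ((h : G) * f * (h : G)⁻¹ * f⁻¹) := by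
              push_cast; group
          _ = ((k : G) * f * (k : G)⁻¹ * f⁻¹) * ((h : G) * f * (h : G)⁻¹ * f⁻¹) := by
              rw [h1]; group
          _ = _ := h2 }
  refine fg_ext K φ (comm_sub_fg hZ hZc ?_) ?_
  · rintro _ ⟨k, rfl⟩
    exact hf k k.2
  · convert hC using 1
    ext x
    constructor
    · rintro ⟨y, hy, rfl⟩
      refine Subgroup.mem_inf.2 ⟨y.2, ?_⟩
      rw [mem_centralizer_singleton_iff]
      have h1 : (y : G) * f * (y : G)⁻¹ * f⁻¹ = 1 := hy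
      have h2 : (y : G) * f = f * y := by
        rw [mul_inv_eq_one, mul_inv_eq_iff_eq_mul] at h1
        exact h1
      exact h2
    · intro hx
      obtain ⟨hx1, hx2⟩ := Subgroup.mem_inf.1 hx
      rw [mem_centralizer_singleton_iff] at hx2
      refine ⟨⟨x, hx1⟩, ?_, rfl⟩
      show x * f * x⁻¹ * f⁻¹ = 1
      rw [hx2]; group

/-- elements of `H` commuting with `F` modulo the central subgroup `Z` -/
def HF (H Z : Subgroup G) (hc : ∀ h ∈ H, ∀ z ∈ Z, h * z = z * h) (F : Set G) : Subgroup G where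
  carrier := {h | h ∈ H ∧ ∀ f ∈ F, h * f * h⁻¹ * f⁻¹ ∈ Z}
  mul_mem' := by
    rintro a b ⟨ha, ha2⟩ ⟨hb, hb2⟩
    refine ⟨mul_mem ha hb, fun f hf => ?_⟩
    have h1 := hc a ha _ (hb2 f hf)
    have h2 : a * b * f * (a * b)⁻¹ * f⁻¹ = (b * f * b⁻¹ * f⁻¹) * (a * f * a⁻¹ * f⁻¹) := by
      calc a * b * f * (a * b)⁻¹ * f⁻¹
          = a * (b * f * b⁻¹ * f⁻¹) * a⁻¹ * (a * f * a⁻¹ * f⁻¹) := by group
        _ = _ := by rw [h1]; group
    rw [h2]
    exact mul_mem (hb2 f hf) (ha2 f hf)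
  one_mem' := ⟨one_mem _, fun f _ => by simp⟩
  inv_mem' := by
    rintro a ⟨ha, ha2⟩
    refine ⟨inv_mem ha, fun f hf => ?_⟩
    have h1 := hc a⁻¹ (inv_mem ha) _ (inv_mem (ha2 f hf))
    have h2 : a⁻¹ * f * a⁻¹⁻¹ * f⁻¹ = (a * f * a⁻¹ * f⁻¹)⁻¹ := by
      calc a⁻¹ * f * a⁻¹⁻¹ * f⁻¹ = a⁻¹ * (a * f * a⁻¹ * f⁻¹)⁻¹ * a := by group
        _ = _ := by rw [h1]; group
    rw [h2]
    exact inv_mem (ha2 f hf)

theorem PS.inter {H : Subgroup G} (h : PS H) {E : Set G} (hE : E.Finite) (hEH : E ⊆ H) :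
    (H ⊓ centralizer E).FG := by
  have := h (closure E) ((closure_le H).2 hEH) (fg_closure hE)
  rwa [centralizer_closure] at this

theorem PS.sub {H : Subgroup G} (h : PS H) {E : Set G} (hE : E.Finite) (hEH : E ⊆ H) :
    PS (H ⊓ centralizer E) := by
  intro K hK hKfg
  obtain ⟨S, rfl, hS⟩ := (Subgroup.fg_iff _).1 hKfg
  have h1 : S ⊆ H := fun s hs => (hK (subset_closure hs)).1
  have h2 := h.inter (hE.union hS) (Set.union_subset hEH h1)
  rw [centralizer_closure, inf_assoc]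
  have h5 : centralizer E ⊓ centralizer S = centralizer (E ∪ S) := by
    ext x
    simp only [Subgroup.mem_inf, mem_centralizer_iff, Set.mem_union]
    constructor
    · rintro ⟨h3, h4⟩ y (hy | hy)
      · exact h3 y hy
      · exact h4 y hy
    · intro h3
      exact ⟨fun y hy => h3 y (Or.inl hy), fun y hy => h3 y (Or.inr hy)⟩
  rwa [h5]

theorem HF_fg {H Z : Subgroup G} (hP : PS H) (hZ : Z.FG) (hZH : Z ≤ H)
    (hc : ∀ h ∈ H, ∀ z ∈ Z, h * z = z * h) {F : Set G} (hF : F.Finite) (hFH : F ⊆ H) :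
    ∀ E : Set G, E.Finite → E ⊆ H → (HF H Z hc F ⊓ centralizer E).FG := by
  induction F, hF using Set.Finite.induction_on with
  | empty =>
    intro E hE hEH
    have h1 : HF H Z hc ∅ = H := by
      ext x
      exact ⟨fun h => h.1, fun h => ⟨h, by simp⟩⟩
    rw [h1]
    exact hP.inter hE hEH
  | @insert f F _ _ ih =>
    intro E hE hEH
    have hfH : f ∈ H := hFH (Set.mem_insert _ _)
    have ih' := ih ((Set.subset_insert _ _).trans hFH) (insert f E) (hE.insert f)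
      (Set.insert_subset hfH hEH)
    refine fg_of_hom_central (Z := Z) (f := f) hZ (fun z hz w hw => hc z (hZH hz) w hw) ?_ ?_ ?_
    · intro k hk z hz
      exact hc k (Subgroup.mem_inf.1 hk).1.1 z hz
    · intro k hk
      exact (Subgroup.mem_inf.1 hk).1.2 f (Set.mem_insert _ _)
    · convert ih' using 1
      ext x
      rw [Subgroup.mem_inf, Subgroup.mem_inf, Subgroup.mem_inf, mem_centralizer_singleton_iff,
        mem_centralizer_iff, mem_centralizer_iff]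
      constructor
      · rintro ⟨⟨h1, h2⟩, h3⟩
        refine ⟨⟨h1.1, fun y hy => h1.2 y (Set.mem_insert_of_mem _ hy)⟩, ?_⟩
        rintro y (rfl | hy)
        · exact h3.symm
        · exact h2 y hy
      · rintro ⟨h1, h2⟩
        have h3 := h2 f (Set.mem_insert _ _)
        refine ⟨⟨⟨h1.1, ?_⟩, fun y hy => h2 y (Set.mem_insert_of_mem _ hy)⟩, h3.symm⟩
        rintro y (rfl | hy)
        · rw [← h3]
          simp only [mul_inv_cancel_right, mul_inv_cancel]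
          exact one_mem _
        · exact h1.2 y hy

theorem S0 {N H Z : Subgroup G} [N.Normal] (hP : PS H) (hG : Good N H) (hZ : Z.FG)
    (hZN : Z ≤ N ⊓ H) (hcen : ∀ h ∈ H, ∀ z ∈ Z, h * z = z * h)
    (hcomm : ∀ x ∈ N ⊓ H, ∀ y ∈ N ⊓ H, x * y * x⁻¹ * y⁻¹ ∈ Z) : (N ⊓ H).FG := by
  have hZH : Z ≤ H := hZN.trans inf_le_right
  have hNF : ∀ F : Set G, F ⊆ (N ⊓ H : Subgroup G) → N ⊓ H ≤ HF H Z hcen F :=
    fun F hF x hx => ⟨hx.2, fun f hf => hcomm x hx f (hF hf)⟩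
  have hFle : ∀ F : Set G, HF H Z hcen F ≤ H := fun F x hx => hx.1
  obtain ⟨_, ⟨F₀, ⟨hF₀, hF₀N⟩, rfl⟩, hmin⟩ := hG.wf
    ((fun F => HF H Z hcen F) '' {F | F.Finite ∧ F ⊆ (N ⊓ H : Subgroup G)})
    (Set.Nonempty.image _ ⟨∅, Set.finite_empty, Set.empty_subset _⟩) (by
      rintro _ ⟨F, ⟨_, hF⟩, rfl⟩
      exact ⟨hNF F hF, hFle F⟩)
  have hK₀fg : (HF H Z hcen F₀).FG := by
    have := HF_fg hP hZ hZH hcen hF₀ (fun x hx => (hF₀N hx).2) ∅ Set.finite_empty (Set.empty_subset _)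
    have h2 : centralizer (∅ : Set G) = ⊤ := by
      ext x; simp [mem_centralizer_iff]
    rwa [h2, inf_top_eq] at this
  obtain ⟨S, hS, hSN, hNS⟩ := nc_of_fp (hG.fp _ (hFle F₀) hK₀fg)
  have hSN' : S ⊆ (N ⊓ H : Subgroup G) := fun s hs => ⟨(hSN hs).1, hFle _ (hSN hs).2⟩
  have hT : ∀ s ∈ S, CF (HF H Z hcen (insert s F₀)) (HF H Z hcen F₀) := by
    intro s hs
    refine hmin _ ⟨insert s F₀, ⟨hF₀.insert s, Set.insert_subset (hSN' hs) hF₀N⟩, rfl⟩ ?_
    intro x hx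
    exact ⟨hx.1, fun f hf => hx.2 f (Set.mem_insert_of_mem _ hf)⟩
  choose! T hT1 hT2 hT3 using hT
  set U : Set G := ⋃ s ∈ S, (fun t => t * s * t⁻¹) '' T s with hU
  have hUf : U.Finite := hS.biUnion (fun s hs => (hT1 s hs).image _)
  have hUN : U ⊆ (N ⊓ H : Subgroup G) := by
    intro x hx
    simp only [hU, Set.mem_iUnion] at hx
    obtain ⟨s, hs, t, ht, rfl⟩ := hx
    have htH : t ∈ H := hFle _ (hT2 s hs ht)
    exact ⟨Subgroup.Normal.conj_mem inferInstance s (hSN' hs).1 t,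
      H.mul_mem (H.mul_mem htH (hSN' hs).2) (H.inv_mem htH)⟩
  have hmain : N ⊓ H = Z ⊔ closure U := by
    apply le_antisymm
    · have h1 : N ⊓ H ≤ N ⊓ HF H Z hcen F₀ := le_inf inf_le_left (hNF F₀ hF₀N)
      refine (h1.trans hNS).trans ((closure_le _).2 ?_)
      rintro _ ⟨k, hk, s, hs, rfl⟩
      obtain ⟨t, ht, htk⟩ := hT3 s hs k hk
      have h2 := htk.2 s (Set.mem_insert _ _)
      have htH : t ∈ H := hFle _ (hT2 s hs ht)
      have h3 := hcen t htH _ h2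
      have h4 : k * s * k⁻¹ = ((t⁻¹ * k) * s * (t⁻¹ * k)⁻¹ * s⁻¹) * (t * s * t⁻¹) := by
        calc k * s * k⁻¹ = t * ((t⁻¹ * k) * s * (t⁻¹ * k)⁻¹ * s⁻¹) * s * t⁻¹ := by group
          _ = _ := by rw [h3]; group
      rw [h4]
      refine mul_mem (mem_sup_left h2) (mem_sup_right (subset_closure ?_))
      simp only [hU, Set.mem_iUnion]
      exact ⟨s, hs, t, ht, rfl⟩
    · exact sup_le hZN ((closure_le _).2 hUN)
  rw [hmain]
  exact hZ.sup (fg_closure hUf)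

section setting

variable {A L : Subgroup G} [A.Normal] [L.Normal]

theorem ns_of_L (hAL : A ≤ L) (hAc : ∀ a ∈ A, ∀ b ∈ A, a * b = b * a)
    (hLL : ∀ x ∈ L, ∀ y ∈ L, x * y * x⁻¹ * y⁻¹ ∈ A) {H : Subgroup G} (hG : Good L H)
    (hP : PS H) (hfg : FGmod A (L ⊓ H)) : NS H := by
  have hGA : Good A H := good_ext A L H hAL hG
    (fun x hx y hy => hLL x (Subgroup.mem_inf.1 hx).1 y (Subgroup.mem_inf.1 hy).1) hfg
  have hA : (A ⊓ H).FG := S0 (Z := ⊥) hP hGA FG.bot bot_le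
    (by intro h _ z hz; rw [Subgroup.mem_bot.1 hz]; simp)
    (by
      intro x hx y hy
      rw [hAc x (Subgroup.mem_inf.1 hx).1 y (Subgroup.mem_inf.1 hy).1]
      simp)
  intro K hK
  refine fg_of_fgmod A K (hGA.ns K hK) (comm_sub_fg hA ?_ (inf_le_inf_left A hK))
  intro x hx y hy
  exact hAc x (Subgroup.mem_inf.1 hx).1 y (Subgroup.mem_inf.1 hy).1

/-- `H` is a minimal counterexample -/
def Mi (L H : Subgroup G) : Prop :=
  PS H ∧ ¬ NS H ∧ ∀ H' : Subgroup G, PS H' → ¬ NS H' → L ⊔ H' ≤ L ⊔ H → CF (L ⊔ H') (L ⊔ H)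

theorem Mi.sub {H H' : Subgroup G} (h : Mi L H) (hle : H' ≤ H) (h1 : PS H') (h2 : ¬ NS H') :
    Mi L H' := by
  refine ⟨h1, h2, fun H'' h3 h4 hle2 => ?_⟩
  have h5 := h.2.2 H'' h3 h4 (hle2.trans (sup_le_sup_left hle L))
  have h6 := cf_inter h5 (sup_le_sup_left hle L)
  rwa [inf_eq_left.2 hle2] at h6

theorem exists_bad (hAL : A ≤ L) (hAc : ∀ a ∈ A, ∀ b ∈ A, a * b = b * a)
    (hLL : ∀ x ∈ L, ∀ y ∈ L, x * y * x⁻¹ * y⁻¹ ∈ A) {H : Subgroup G} (hG : Good L H)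
    (hM : Mi L H) : ∃ g ∈ L ⊓ H, NS (H ⊓ centralizer {g}) := by
  by_contra hcon
  push Not at hcon
  have hHfg : H.FG := by
    have := hM.1.inter Set.finite_empty (Set.empty_subset _)
    have h2 : centralizer (∅ : Set G) = ⊤ := by
      ext x; simp [mem_centralizer_iff]
    rwa [h2, inf_top_eq] at this
  obtain ⟨S, hS, hSN, hNS⟩ := nc_of_fp (hG.fp H le_rfl hHfg)
  have hT : ∀ s ∈ S, CF (L ⊔ (H ⊓ centralizer {s})) (L ⊔ H) := by
    intro s hs
    exact hM.2.2 _ (hM.1.sub (Set.finite_singleton s) (Set.singleton_subset_iff.2 (hSN hs).2))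
      (hcon s (hSN hs)) (sup_le_sup_left inf_le_left L)
  choose! T hT1 hT2 hT3 using hT
  set U : Set G := ⋃ s ∈ S, (fun t => t * s * t⁻¹) '' T s with hU
  have hUf : U.Finite := hS.biUnion (fun s hs => (hT1 s hs).image _)
  have hUL : ∀ x ∈ U, x ∈ L := by
    intro x hx
    simp only [hU, Set.mem_iUnion] at hx
    obtain ⟨s, hs, t, ht, rfl⟩ := hx
    exact Subgroup.Normal.conj_mem inferInstance s (hSN hs).1 t
  refine hM.2.1 (ns_of_L hAL hAc hLL hG hM.1 (fgmod_of_comm A hUf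
    (fun x hx y hy => hLL x (hUL x hx) y (hUL y hy)) ?_))
  refine hNS.trans ((closure_le _).2 ?_)
  rintro _ ⟨k, hk, s, hs, rfl⟩
  obtain ⟨t, ht, htk⟩ := hT3 s hs k (mem_sup_right hk)
  obtain ⟨l, hl, c, hc, hlc⟩ := mem_sup_of_normal_left.1 htk
  have hcs : c * s = s * c := by
    have := (Subgroup.mem_inf.1 hc).2
    rwa [mem_centralizer_singleton_iff] at this
  have hk' : k = t * l * c := by
    rw [mul_assoc, hlc]; group
  have h4 : k * s * k⁻¹ = (t * (l * s * l⁻¹ * s⁻¹) * t⁻¹) * (t * s * t⁻¹) := by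
    rw [hk']
    calc t * l * c * s * (t * l * c)⁻¹ = t * l * (c * s) * (t * l * c)⁻¹ := by group
      _ = _ := by rw [hcs]; group
  rw [h4]
  refine mul_mem (mem_sup_left ?_) (mem_sup_right (subset_closure ?_))
  · exact Subgroup.Normal.conj_mem inferInstance _ (hLL l hl s (hSN hs).1) t
  · simp only [hU, Set.mem_iUnion]
    exact ⟨s, hs, t, ht, rfl⟩

theorem ns_of_A (hAL : A ≤ L) (hAc : ∀ a ∈ A, ∀ b ∈ A, a * b = b * a)
    (hLL : ∀ x ∈ L, ∀ y ∈ L, x * y * x⁻¹ * y⁻¹ ∈ A) (hG : ∀ H : Subgroup G, Good L H)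
    {H : Subgroup G} (hP : PS H) (hA : (A ⊓ H).FG) : NS H := by
  obtain ⟨E, hE, hEf⟩ := (Subgroup.fg_iff _).1 hA
  have hEH : E ⊆ H := fun x hx => (Subgroup.mem_inf.1 (hE ▸ subset_closure hx : x ∈ A ⊓ H)).2
  have hcE : centralizer E = centralizer ((A ⊓ H : Subgroup G) : Set G) := by
    rw [← hE, centralizer_closure]
  have hP1 : PS (H ⊓ centralizer ((A ⊓ H : Subgroup G) : Set G)) := hcE ▸ hP.sub hEf hEH
  have hAcc : A ⊓ H ≤ centralizer ((A ⊓ H : Subgroup G) : Set G) := by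
    intro x hx
    rw [mem_centralizer_iff]
    intro y hy
    exact hAc y (Subgroup.mem_inf.1 hy).1 x (Subgroup.mem_inf.1 hx).1
  have h1 : (L ⊓ (H ⊓ centralizer ((A ⊓ H : Subgroup G) : Set G))).FG := by
    refine S0 (Z := A ⊓ H) hP1 (hG _) hA ?_ ?_ ?_
    · exact le_inf (inf_le_left.trans hAL) (le_inf inf_le_right hAcc)
    · intro h hh z hz
      have := (Subgroup.mem_inf.1 hh).2
      rw [mem_centralizer_iff] at this
      exact (this z hz).symm
    · intro x hx y hy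
      obtain ⟨hx1, hx2⟩ := Subgroup.mem_inf.1 hx
      obtain ⟨hy1, hy2⟩ := Subgroup.mem_inf.1 hy
      have hxH := (Subgroup.mem_inf.1 hx2).1
      have hyH := (Subgroup.mem_inf.1 hy2).1
      exact Subgroup.mem_inf.2 ⟨hLL x hx1 y hy1,
        mul_mem (mul_mem (mul_mem hxH hyH) (inv_mem hxH)) (inv_mem hyH)⟩
  obtain ⟨S, hS, hSL, hSc⟩ := comm_aut_fg (A ⊓ H) (L ⊓ H) hA
    (fun a ha b hb => hAc a (Subgroup.mem_inf.1 ha).1 b (Subgroup.mem_inf.1 hb).1)
    (fun l hl a ha => Subgroup.mem_inf.2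
      ⟨Subgroup.Normal.conj_mem inferInstance a (Subgroup.mem_inf.1 ha).1 l,
        mul_mem (mul_mem (Subgroup.mem_inf.1 hl).2 (Subgroup.mem_inf.1 ha).2)
          (inv_mem (Subgroup.mem_inf.1 hl).2)⟩)
    (by
      intro l hl m hm a ha
      have h2 : (m * l)⁻¹ * (l * m) ∈ A := by
        have h3 := hLL l (Subgroup.mem_inf.1 hl).1 m (Subgroup.mem_inf.1 hm).1
        have h4 := Subgroup.Normal.conj_mem (H := A) inferInstance _ h3 (m * l)⁻¹
        have h5 : (m * l)⁻¹ * (l * m * l⁻¹ * m⁻¹) * (m * l)⁻¹⁻¹ = (m * l)⁻¹ * (l * m) := by group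
        rwa [h5] at h4
      have h6 := hAc _ h2 a (Subgroup.mem_inf.1 ha).1
      calc l * m * a * (l * m)⁻¹
          = (m * l) * ((m * l)⁻¹ * (l * m) * a) * ((m * l)⁻¹ * (l * m))⁻¹ * (m * l)⁻¹ := by group
        _ = _ := by rw [h6]; group)
  refine ns_of_L hAL hAc hLL (hG H) hP ?_
  have h2 : L ⊓ H = closure S ⊔ (L ⊓ (H ⊓ centralizer ((A ⊓ H : Subgroup G) : Set G))) := by
    apply le_antisymm
    · intro l hl
      obtain ⟨c, hc, hca⟩ := hSc l hl
      have hcL : c ∈ L ⊓ H := (closure_le _).2 hSL hc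
      have h3 : c⁻¹ * l ∈ L ⊓ (H ⊓ centralizer ((A ⊓ H : Subgroup G) : Set G)) := by
        have h4 := (L ⊓ H).mul_mem ((L ⊓ H).inv_mem hcL) hl
        refine Subgroup.mem_inf.2 ⟨(Subgroup.mem_inf.1 h4).1,
          Subgroup.mem_inf.2 ⟨(Subgroup.mem_inf.1 h4).2, ?_⟩⟩
        rw [mem_centralizer_iff]
        intro a ha
        have h5 := hca a ha
        have h6 : a = c⁻¹ * (l * a * l⁻¹) * c := by rw [h5]; group
        calc a * (c⁻¹ * l) = (c⁻¹ * (l * a * l⁻¹) * c) * (c⁻¹ * l) := by rw [← h6]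
          _ = c⁻¹ * l * a := by group
      have h7 := mul_mem (mem_sup_left (T := (L ⊓ (H ⊓ centralizer ((A ⊓ H : Subgroup G) : Set G)))) hc)
        (mem_sup_right (S := closure S) h3)
      simpa using h7
    · exact sup_le ((closure_le _).2 hSL) (inf_le_inf_left L inf_le_left)
  have h3 : (L ⊓ H).FG := by
    rw [h2]
    exact (fg_closure hS).sup h1
  obtain ⟨S', hS', hS'f⟩ := (Subgroup.fg_iff _).1 h3
  refine ⟨S', hS'f, ?_, ?_⟩
  · intro x hx
    exact hS' ▸ subset_closure hx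
  · rw [hS']
    exact le_sup_right

end setting

end MBP
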