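import Mathlib

/-! Acyclicity lemma (linear algebra), proof by helper994. -/

namespace MBP

section propP_aux

variable {K V Γ : Type*} [Field K] [AddCommGroup V] [Module K V] [Group Γ]

/-- finite-dimensional invariant subspaces -/
def PGood (ρ : Γ →* (V →ₗ[K] V)) (W : Submodule K V) : Prop :=
  FiniteDimensional K W ∧ ∀ x, ∀ w ∈ W, ρ x w ∈ W

theorem PGood.bot (ρ : Γ →* (V →ₗ[K] V)) : PGood ρ ⊥ := by
  refine ⟨inferInstance, ?_⟩
  intro x w hw
  rw [Submodule.mem_bot] at hw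
  simp [hw]

theorem PGood.sup {ρ : Γ →* (V →ₗ[K] V)} {W W' : Submodule K V} (h : PGood ρ W)
    (h' : PGood ρ W') : PGood ρ (W ⊔ W') := by
  obtain ⟨h1, h2⟩ := h
  obtain ⟨h1', h2'⟩ := h'
  refine ⟨inferInstance, ?_⟩
  intro x w hw
  obtain ⟨a, ha, b, hb, rfl⟩ := Submodule.mem_sup.1 hw
  rw [map_add]
  exact Submodule.add_mem_sup (h2 x a ha) (h2' x b hb)

theorem exists_good_finset {ρ : Γ →* (V →ₗ[K] V)}
    (hloc : ∀ v : V, ∃ W : Submodule K V, FiniteDimensional K W ∧ v ∈ W ∧ ∀ x, ∀ w ∈ W, ρ x w ∈ W)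
    (S : Finset V) : ∃ W : Submodule K V, PGood ρ W ∧ ∀ v ∈ S, v ∈ W := by
  classical
  induction S using Finset.induction_on with
  | empty => exact ⟨⊥, PGood.bot ρ, by simp⟩
  | insert a s _ ih =>
    obtain ⟨W, hW, hs⟩ := ih
    obtain ⟨W', h1, h2, h3⟩ := hloc a
    refine ⟨W ⊔ W', hW.sup ⟨h1, h3⟩, ?_⟩
    intro v hv
    rcases Finset.mem_insert.1 hv with rfl | hv
    · exact Submodule.mem_sup_right h2
    · exact Submodule.mem_sup_left (hs v hv)

theorem exists_good_ge {ρ : Γ →* (V →ₗ[K] V)}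
    (hloc : ∀ v : V, ∃ W : Submodule K V, FiniteDimensional K W ∧ v ∈ W ∧ ∀ x, ∀ w ∈ W, ρ x w ∈ W)
    (F : Submodule K V) (hF : FiniteDimensional K F) :
    ∃ W : Submodule K V, PGood ρ W ∧ F ≤ W := by
  obtain ⟨S, hS⟩ := (Submodule.fg_iff_finiteDimensional F).2 hF
  obtain ⟨W, hW, h⟩ := exists_good_finset hloc S
  refine ⟨W, hW, ?_⟩
  rw [← hS]
  exact Submodule.span_le.2 h

theorem exists_good_map {ρ : Γ →* (V →ₗ[K] V)}
    (hloc : ∀ v : V, ∃ W : Submodule K V, FiniteDimensional K W ∧ v ∈ W ∧ ∀ x, ∀ w ∈ W, ρ x w ∈ W)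
    (D : V →ₗ[K] V) (Vm : Submodule K V) (htop : LinearMap.range D ⊔ Vm = ⊤)
    (F : Submodule K V) (hF : FiniteDimensional K F) :
    ∃ W : Submodule K V, PGood ρ W ∧ F ≤ W.map D ⊔ Vm := by
  classical
  obtain ⟨S, hS⟩ := (Submodule.fg_iff_finiteDimensional F).2 hF
  have hex : ∀ v : V, ∃ a : V, ∃ m ∈ Vm, D a + m = v := by
    intro v
    have hv : v ∈ LinearMap.range D ⊔ Vm := by rw [htop]; trivial
    obtain ⟨b, ⟨a, rfl⟩, m, hm, h⟩ := Submodule.mem_sup.1 hv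
    exact ⟨a, m, hm, h⟩
  choose a m hm hD using hex
  obtain ⟨W, hW, h⟩ := exists_good_finset hloc (S.image a)
  refine ⟨W, hW, ?_⟩
  rw [← hS]
  refine Submodule.span_le.2 ?_
  intro v hv
  rw [← hD v]
  exact Submodule.add_mem_sup (Submodule.mem_map_of_mem
    (h _ (Finset.mem_image_of_mem a hv))) (hm v)

theorem coker_fd {ρ : Γ →* (V →ₗ[K] V)}
    (hloc : ∀ v : V, ∃ W : Submodule K V, FiniteDimensional K W ∧ v ∈ W ∧ ∀ x, ∀ w ∈ W, ρ x w ∈ W)
    (g : Γ) (hker : FiniteDimensional K (LinearMap.ker (ρ g - 1))) :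
    FiniteDimensional K (V ⧸ LinearMap.range (ρ g - 1)) := by
  classical
  set D : V →ₗ[K] V := ρ g - 1 with hD
  have hrank : Module.rank K (V ⧸ LinearMap.range D) ≤ (Module.finrank K (LinearMap.ker D) : ℕ) := by
    refine rank_le ?_
    intro s hs
    obtain ⟨W, ⟨hWf, hWi⟩, hW⟩ := exists_good_finset hloc
      (s.image (Function.surjInv (Submodule.mkQ_surjective (LinearMap.range D))))
    have hDW : ∀ w ∈ W, D w ∈ W := by
      intro w hw
      rw [hD, LinearMap.sub_apply, Module.End.one_apply]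
      exact W.sub_mem (hWi g w hw) hw
    let φ : W →ₗ[K] (V ⧸ LinearMap.range D) := (LinearMap.range D).mkQ ∘ₗ W.subtype
    let DW : W →ₗ[K] W := D.restrict hDW
    have h1 : Module.finrank K (LinearMap.range φ) + Module.finrank K (LinearMap.ker φ)
        = Module.finrank K W := LinearMap.finrank_range_add_finrank_ker φ
    have h2 : Module.finrank K (LinearMap.range DW) + Module.finrank K (LinearMap.ker DW)
        = Module.finrank K W := LinearMap.finrank_range_add_finrank_ker DW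
    have h3 : LinearMap.range DW ≤ LinearMap.ker φ := by
      rintro _ ⟨w, rfl⟩
      rw [LinearMap.mem_ker]
      simp only [φ, DW, LinearMap.comp_apply, Submodule.subtype_apply, LinearMap.coe_restrict_apply,
        Submodule.mkQ_apply]
      rw [Submodule.Quotient.mk_eq_zero]
      exact ⟨w, rfl⟩
    have h4 := Submodule.finrank_mono h3
    have h5 : Module.finrank K (LinearMap.ker DW) ≤ Module.finrank K (LinearMap.ker D) := by
      let ψ : LinearMap.ker DW →ₗ[K] LinearMap.ker D :=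
        { toFun := fun w => ⟨((w : W) : V), by
            have h1 : DW (w : W) = 0 := w.2
            have h2 : ((DW (w : W) : W) : V) = 0 := by rw [h1]; rfl
            exact h2⟩
          map_add' := by intro a b; rfl
          map_smul' := by intro c a; rfl }
      refine LinearMap.finrank_le_finrank_of_injective (f := ψ) ?_
      intro a b hab
      have h := congrArg (fun z : LinearMap.ker D => (z : V)) hab
      exact Subtype.ext (Subtype.ext h)
    have h6 : s.card ≤ Module.finrank K (LinearMap.range φ) := by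
      have h7 : Module.finrank K (Submodule.span K (s : Set (V ⧸ LinearMap.range D))) = s.card :=
        finrank_span_finset_eq_card hs
      rw [← h7]
      refine Submodule.finrank_mono ?_
      refine Submodule.span_le.2 ?_
      intro v hv
      have hmem := hW _ (Finset.mem_image_of_mem _ hv)
      refine ⟨⟨_, hmem⟩, ?_⟩
      simp only [φ, LinearMap.comp_apply, Submodule.subtype_apply]
      exact Function.surjInv_eq (Submodule.mkQ_surjective (LinearMap.range D)) v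
    omega
  have : Module.rank K (V ⧸ LinearMap.range D) < Cardinal.aleph0 :=
    lt_of_le_of_lt hrank (Cardinal.natCast_lt_aleph0)
  exact Module.rank_lt_aleph0_iff.1 this

end propP_aux

theorem propP {K V Γ : Type*} [Field K] [AddCommGroup V] [Module K V] [Group Γ] [Group.FG Γ]
    (ρ : Γ →* (V →ₗ[K] V)) (A L : Subgroup Γ) [A.Normal] [L.Normal] (hAL : A ≤ L)
    (hLL : ∀ x ∈ L, ∀ y ∈ L, x * y * x⁻¹ * y⁻¹ ∈ A)
    (ι : Γ → V) (hmul : ∀ a ∈ A, ∀ b ∈ A, ι (a * b) = ι a + ι b)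
    (hconj : ∀ x, ∀ a ∈ A, ι (x * a * x⁻¹) = ρ x (ι a))
    (hA : ∀ a ∈ A, ρ a = 1)
    (hspan : Submodule.span K (ι '' A) = ⊤)
    (hloc : ∀ v : V, ∃ W : Submodule K V, FiniteDimensional K W ∧ v ∈ W ∧ ∀ x, ∀ w ∈ W, ρ x w ∈ W)
    (g : Γ) (hg : g ∈ L) (hker : FiniteDimensional K (LinearMap.ker (ρ g - 1))) :
    FiniteDimensional K V := by
  classical
  have hρmul : ∀ x y v, ρ (x * y) v = ρ x (ρ y v) := by
    intro x y v; rw [map_mul]; rfl
  have hρ1 : ∀ v, ρ 1 v = v := by intro v; rw [map_one]; rfl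
  have hinv1 : ∀ x v, ρ x (ρ x⁻¹ v) = v := by
    intro x v; rw [← hρmul, mul_inv_cancel, hρ1]
  have hinv2 : ∀ x v, ρ x⁻¹ (ρ x v) = v := by
    intro x v; rw [← hρmul, inv_mul_cancel, hρ1]
  have ι1 : ι 1 = 0 := by
    have := hmul 1 A.one_mem 1 A.one_mem
    simpa using this
  have ιinv : ∀ a ∈ A, ι a⁻¹ = - ι a := by
    intro a ha
    have := hmul a ha a⁻¹ (A.inv_mem ha)
    rw [mul_inv_cancel, ι1] at this
    exact (neg_eq_of_add_eq_zero_right this.symm).symm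
  -- commutators
  obtain ⟨c, hc⟩ : ∃ c : Γ → Γ → V, ∀ p q, c p q = ι (p * q * p⁻¹ * q⁻¹) := ⟨_, fun _ _ => rfl⟩
  have c_mul : ∀ p ∈ L, ∀ q ∈ L, ∀ r ∈ L, c (p * q) r = ρ p (c q r) + c p r := by
    intro p hp q hq r hr
    rw [hc, hc, hc, ← hconj p _ (hLL q hq r hr),
      ← hmul _ ((inferInstance : A.Normal).conj_mem _ (hLL q hq r hr) p) _ (hLL p hp r hr)]
    congr 1
    group
  have c_swap : ∀ p ∈ L, ∀ q ∈ L, c q p = - c p q := by
    intro p hp q hq
    rw [hc, hc, ← ιinv _ (hLL p hp q hq)]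
    congr 1
    group
  have c_a : ∀ a ∈ A, ∀ r, c a r = ι a - ρ r (ι a) := by
    intro a ha r
    have e : a * r * a⁻¹ * r⁻¹ = a * (r * a⁻¹ * r⁻¹) := by group
    rw [hc, e, hmul a ha _ ((inferInstance : A.Normal).conj_mem _ (A.inv_mem ha) r),
      hconj r _ (A.inv_mem ha), ιinv a ha, map_neg]
    abel
  have hρA : ∀ a ∈ A, ∀ v, ρ a v = v := by
    intro a ha v; rw [hA a ha]; rfl
  have hcomm : ∀ p ∈ L, ∀ q ∈ L, ∀ v, ρ p (ρ q v) = ρ q (ρ p v) := by
    intro p hp q hq v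
    rw [← hρmul, ← hρmul]
    have e : p * q = (p * q * p⁻¹ * q⁻¹) * (q * p) := by group
    rw [e, hρmul, hρA _ (hLL p hp q hq)]
  have hall : ∀ p ∈ L, ∀ q ∈ L, ∀ r ∈ L, (ρ r (c p q) - c p q) + (ρ p (c q r) - c q r)
      + (ρ q (c r p) - c r p) = 0 := by
    intro p hp q hq r hr
    have h1 := c_mul p hp q hq r hr
    have hpq := hLL p hp q hq
    have e : p * q = (p * q * p⁻¹ * q⁻¹) * (q * p) := by group
    have h2 : c (p * q) r = ρ q (c p r) + c q r + (c p q - ρ r (c p q)) := by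
      rw [e, c_mul _ (hAL hpq) _ (L.mul_mem hq hp) r hr, hρA _ hpq, c_mul q hq p hp r hr,
        c_a _ hpq r, ← hc]
    rw [c_swap p hp r hr, map_neg]
    rw [h1] at h2
    have h3 : ρ p (c q r) = ρ q (c p r) + c q r + (c p q - ρ r (c p q)) - c p r := by
      rw [← h2]; abel
    rw [h3]
    abel
  have c_conj : ∀ x, ∀ p ∈ L, ∀ q ∈ L, c (x * p * x⁻¹) (x * q * x⁻¹) = ρ x (c p q) := by
    intro x p hp q hq
    rw [hc, hc, ← hconj x _ (hLL p hp q hq)]
    congr 1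
    group
  have hgx : ∀ x, x * g * x⁻¹ ∈ L := fun x => (inferInstance : L.Normal).conj_mem g hg x
  have hgxy : ∀ x y, x * (y * g * y⁻¹) * x⁻¹ = (x * y) * g * (x * y)⁻¹ := by
    intro x y; group
  -- the key identity
  have key : ∀ x y, ρ (x * g * x⁻¹) (c ((x * y) * g * (x * y)⁻¹) g) - c ((x * y) * g * (x * y)⁻¹) g
      = (ρ g (ρ x (c (y * g * y⁻¹) g)) - ρ x (c (y * g * y⁻¹) g))
        + (ρ ((x * y) * g * (x * y)⁻¹) (c (x * g * x⁻¹) g) - c (x * g * x⁻¹) g) := by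
    intro x y
    have h := hall _ (hgx x) _ (hgx (x * y)) g hg
    have h1 : c (x * g * x⁻¹) ((x * y) * g * (x * y)⁻¹) = - ρ x (c (y * g * y⁻¹) g) := by
      rw [← hgxy, c_conj x g hg _ (hgx y), c_swap _ (hgx y) g hg, map_neg]
    rw [h1, c_swap _ (hgx x) g hg, map_neg, map_neg] at h
    rw [← sub_eq_zero, ← h]
    abel
  -- range and a good subspace
  obtain ⟨D, hD⟩ : ∃ D : V →ₗ[K] V, D = ρ g - 1 := ⟨_, rfl⟩
  have hDv : ∀ v, D v = ρ g v - v := by intro v; rw [hD]; rfl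
  obtain ⟨Vm, hVm, htop⟩ : ∃ Vm : Submodule K V, PGood ρ Vm ∧ LinearMap.range D ⊔ Vm = ⊤ := by
    have hq : FiniteDimensional K (V ⧸ LinearMap.range D) := by
      rw [hD]; exact coker_fd hloc g hker
    obtain ⟨C, hC⟩ := Submodule.exists_isCompl (LinearMap.range D)
    have hCf : FiniteDimensional K C :=
      LinearEquiv.finiteDimensional (Submodule.quotientEquivOfIsCompl _ _ hC)
    obtain ⟨W, hW, hCW⟩ := exists_good_ge hloc C hCf
    refine ⟨W, hW, ?_⟩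
    rw [eq_top_iff, ← hC.sup_eq_top]
    exact sup_le_sup_left hCW _
  have hVmi : ∀ x, ∀ w ∈ Vm, ρ x w ∈ Vm := hVm.2
  have hVmd : ∀ x, ∀ w ∈ Vm, ρ x w - w ∈ Vm := fun x w hw => Vm.sub_mem (hVm.2 x w hw) hw
  have hkerD : FiniteDimensional K (LinearMap.ker D) := by rw [hD]; exact hker
  have hcomap : ∀ F : Submodule K V, FiniteDimensional K F → FiniteDimensional K (F.comap D) := by
    intro F hF
    rw [← Submodule.fg_iff_finiteDimensional]
    refine Submodule.fg_of_fg_map_of_fg_inf_ker D ?_ ?_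
    · rw [Submodule.fg_iff_finiteDimensional]
      exact Submodule.finiteDimensional_of_le (Submodule.map_comap_le D F)
    · rw [Submodule.fg_iff_finiteDimensional]
      exact Submodule.finiteDimensional_of_le (inf_le_right : F.comap D ⊓ LinearMap.ker D ≤ _)
  obtain ⟨Vm', hVm', hKle⟩ := exists_good_ge hloc (Vm.comap D) (hcomap Vm hVm.1)
  obtain ⟨V1, hV1, hle1⟩ := exists_good_map hloc D Vm htop Vm' hVm'.1
  obtain ⟨V2, hV2, hle2⟩ := exists_good_map hloc D Vm htop V1 hV1.1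
  -- conjugated version
  have hle2' : ∀ h, ∀ v ∈ V1, ∃ z ∈ V2, ∃ m ∈ Vm, v = (ρ (h * g * h⁻¹) z - z) + m := by
    intro h v hv
    obtain ⟨b, hb, m, hm, hbm⟩ := Submodule.mem_sup.1 (hle2 (hV1.2 h⁻¹ v hv))
    obtain ⟨z, hz, rfl⟩ := Submodule.mem_map.1 hb
    refine ⟨ρ h z, hV2.2 h z hz, ρ h m, hVm.2 h m hm, ?_⟩
    have e : v = ρ h (ρ h⁻¹ v) := (hinv1 h v).symm
    rw [e, ← hbm, map_add, hDv, map_sub, hρmul, hρmul, hinv2]
  have htopx : ∀ h v, ∃ z, ∃ m ∈ Vm, v = (ρ (h * g * h⁻¹) z - z) + m := by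
    intro h v
    have hv : ρ h⁻¹ v ∈ LinearMap.range D ⊔ Vm := by rw [htop]; trivial
    obtain ⟨b, ⟨z, rfl⟩, m, hm, hbm⟩ := Submodule.mem_sup.1 hv
    refine ⟨ρ h z, ρ h m, hVm.2 h m hm, ?_⟩
    have e : v = ρ h (ρ h⁻¹ v) := (hinv1 h v).symm
    rw [e, ← hbm, map_add, hDv, map_sub, hρmul, hρmul, hinv2]
  have hDVm : ∀ m ∈ Vm, D m ∈ Vm := by
    intro m hm; rw [hDv]; exact hVmd g m hm
  have hRex : ∀ x, ∃ u, c (x * g * x⁻¹) g + D (ρ (x * g * x⁻¹) u - u) ∈ Vm := by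
    intro x
    have hv : - c (x * g * x⁻¹) g ∈ LinearMap.range D ⊔ Vm := by rw [htop]; trivial
    obtain ⟨b, ⟨a, rfl⟩, m, hm, hbm⟩ := Submodule.mem_sup.1 hv
    obtain ⟨z, m', hm', hz⟩ := htopx x a
    refine ⟨z, ?_⟩
    have e : ρ (x * g * x⁻¹) z - z = a - m' := by rw [hz]; abel
    have e2 : c (x * g * x⁻¹) g + D (ρ (x * g * x⁻¹) z - z) = - m - D m' := by
      rw [e, map_sub]
      have : c (x * g * x⁻¹) g = - (D a + m) := by rw [hbm, neg_neg]
      rw [this]; abel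
    rw [e2]
    exact Vm.sub_mem (Vm.neg_mem hm) (hDVm m' hm')
  choose u hu using hRex
  have hDcomm : ∀ p ∈ L, ∀ v, ρ p (D v) = D (ρ p v) := by
    intro p hp v
    rw [hDv, hDv, map_sub, hcomm p hp g hg]
  have hx1 : ∀ x v, ρ (x * g * x⁻¹) (ρ x v) = ρ x (ρ g v) := by
    intro x v
    rw [← hρmul, ← hρmul]
    congr 2
    group
  have hx2 : ∀ x y v, ρ ((x * y) * g * (x * y)⁻¹) (ρ x v) = ρ x (ρ (y * g * y⁻¹) v) := by
    intro x y v
    rw [← hρmul, ← hρmul]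
    congr 2
    group
  have hclose : ∀ Vn : Submodule K V, PGood ρ Vn → V2 ≤ Vn → ∀ x y,
      (∃ w ∈ Vn, c (x * g * x⁻¹) g + D (ρ (x * g * x⁻¹) w - w) ∈ Vm) →
      (∃ w ∈ Vn, c (y * g * y⁻¹) g + D (ρ (y * g * y⁻¹) w - w) ∈ Vm) →
      (∃ w ∈ Vn, c ((x * y) * g * (x * y)⁻¹) g + D (ρ ((x * y) * g * (x * y)⁻¹) w - w) ∈ Vm) := by
    rintro Vn hVn hV2n x y ⟨w, hw, hwm⟩ ⟨v, hv, hvm⟩
    have hcommpq := hcomm _ (hgx x) _ (hgx (x * y)) w
    have hz : ρ (x * g * x⁻¹) (c ((x * y) * g * (x * y)⁻¹) g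
          + D (ρ ((x * y) * g * (x * y)⁻¹) (w + ρ x v) - (w + ρ x v)))
        - (c ((x * y) * g * (x * y)⁻¹) g
          + D (ρ ((x * y) * g * (x * y)⁻¹) (w + ρ x v) - (w + ρ x v)))
        = (ρ ((x * y) * g * (x * y)⁻¹) (c (x * g * x⁻¹) g + D (ρ (x * g * x⁻¹) w - w))
            - (c (x * g * x⁻¹) g + D (ρ (x * g * x⁻¹) w - w)))
          + D (ρ x (c (y * g * y⁻¹) g + D (ρ (y * g * y⁻¹) v - v))) := by
      have k := key x y
      have e1 : ρ (x * g * x⁻¹) (D (ρ ((x * y) * g * (x * y)⁻¹) (w + ρ x v) - (w + ρ x v)))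
          = D (ρ (x * g * x⁻¹) (ρ ((x * y) * g * (x * y)⁻¹) w)) - D (ρ (x * g * x⁻¹) w)
            + D (ρ x (ρ g (ρ (y * g * y⁻¹) v))) - D (ρ x (ρ g v)) := by
        rw [hDcomm _ (hgx x), map_sub, map_add, map_add, hx2, map_add, hx1, hx1]
        simp only [map_sub, map_add]
        abel
      have e2 : D (ρ ((x * y) * g * (x * y)⁻¹) (w + ρ x v) - (w + ρ x v))
          = D (ρ ((x * y) * g * (x * y)⁻¹) w) - D w + D (ρ x (ρ (y * g * y⁻¹) v)) - D (ρ x v) := by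
        rw [map_add, hx2]
        simp only [map_sub, map_add]
        abel
      have e3 : ρ ((x * y) * g * (x * y)⁻¹) (D (ρ (x * g * x⁻¹) w - w))
          = D (ρ (x * g * x⁻¹) (ρ ((x * y) * g * (x * y)⁻¹) w))
            - D (ρ ((x * y) * g * (x * y)⁻¹) w) := by
        rw [hDcomm _ (hgx (x * y)), map_sub, map_sub, hcommpq]
      have e4 : D (ρ x (D (ρ (y * g * y⁻¹) v - v)))
          = D (ρ x (ρ g (ρ (y * g * y⁻¹) v))) - D (ρ x (ρ g v))
            - D (ρ x (ρ (y * g * y⁻¹) v)) + D (ρ x v) := by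
        rw [hDv (ρ (y * g * y⁻¹) v - v)]
        simp only [map_sub]
        abel
      have e5 : D (ρ x (c (y * g * y⁻¹) g))
          = ρ g (ρ x (c (y * g * y⁻¹) g)) - ρ x (c (y * g * y⁻¹) g) := hDv _
      rw [map_add (ρ (x * g * x⁻¹)), e1, e2, map_add (ρ (x * y * g * (x * y)⁻¹)), e3,
        map_add (ρ x), map_add D, e4, e5, map_sub D (ρ (x * g * x⁻¹) w) w]
      rw [sub_eq_iff_eq_add] at k
      rw [k]
      abel
    obtain ⟨z, hzdef⟩ : ∃ z, z = c ((x * y) * g * (x * y)⁻¹) g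
          + D (ρ ((x * y) * g * (x * y)⁻¹) (w + ρ x v) - (w + ρ x v)) := ⟨_, rfl⟩
    rw [← hzdef] at hz
    have hz1 : ρ (x * g * x⁻¹) z - z ∈ Vm := by
      rw [hz]
      exact Vm.add_mem (hVmd _ _ hwm) (hDVm _ (hVmi x _ hvm))
    have hz2 : z ∈ Vm' := by
      have e : D (ρ x⁻¹ z) = ρ x⁻¹ (ρ (x * g * x⁻¹) z - z) := by
        rw [hDv, map_sub, ← hρmul, ← hρmul]
        congr 3
        group
      have h1 : ρ x⁻¹ z ∈ Vm.comap D := by
        rw [Submodule.mem_comap, e]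
        exact hVmi _ _ hz1
      have h2 := hVm'.2 x _ (hKle h1)
      rwa [hinv1] at h2
    obtain ⟨b, hb, m, hm, hbm⟩ := Submodule.mem_sup.1 (hle1 hz2)
    obtain ⟨v1, hv1, rfl⟩ := Submodule.mem_map.1 hb
    obtain ⟨z2, hz2', m2, hm2, hv1e⟩ := hle2' (x * y) v1 hv1
    refine ⟨(w + ρ x v) - z2, Vn.sub_mem (Vn.add_mem hw (hVn.2 x v hv)) (hV2n hz2'), ?_⟩
    have e : c ((x * y) * g * (x * y)⁻¹) g + D (ρ ((x * y) * g * (x * y)⁻¹) ((w + ρ x v) - z2)
        - ((w + ρ x v) - z2)) = m + D m2 := by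
      have e1 : D (ρ ((x * y) * g * (x * y)⁻¹) ((w + ρ x v) - z2) - ((w + ρ x v) - z2))
          = D (ρ ((x * y) * g * (x * y)⁻¹) (w + ρ x v) - (w + ρ x v))
            - D (ρ ((x * y) * g * (x * y)⁻¹) z2 - z2) := by
        rw [← map_sub D, map_sub (ρ (x * y * g * (x * y)⁻¹))]
        congr 1
        abel
      have e2 : ρ ((x * y) * g * (x * y)⁻¹) z2 - z2 = v1 - m2 := by rw [hv1e]; abel
      rw [e1, e2, ← add_sub_assoc, ← hzdef, ← hbm, map_sub]
      abel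
    rw [e]
    exact Vm.add_mem hm (hDVm m2 hm2)
  -- generating set
  obtain ⟨T, hT⟩ := (Group.FG.out : (⊤ : Subgroup Γ).FG)
  obtain ⟨V3, hV3, hV3u⟩ := exists_good_finset hloc ((T ∪ T.image (·⁻¹)).image u)
  have hVn : PGood ρ (V2 ⊔ V3) := hV2.sup hV3
  have hgen : ∀ t ∈ T ∪ T.image (·⁻¹), ∃ w ∈ V2 ⊔ V3,
      c (t * g * t⁻¹) g + D (ρ (t * g * t⁻¹) w - w) ∈ Vm := fun t ht =>
    ⟨u t, Submodule.mem_sup_right (hV3u _ (Finset.mem_image_of_mem u ht)), hu t⟩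
  have hone : ∃ w ∈ V2 ⊔ V3, c (1 * g * 1⁻¹) g + D (ρ (1 * g * 1⁻¹) w - w) ∈ Vm := by
    refine ⟨0, Submodule.zero_mem _, ?_⟩
    have : c (1 * g * 1⁻¹) g = 0 := by
      rw [hc, ← ι1]; congr 1; group
    rw [this]
    simp
  have hallx : ∀ x, ∃ w ∈ V2 ⊔ V3, c (x * g * x⁻¹) g + D (ρ (x * g * x⁻¹) w - w) ∈ Vm := by
    intro x
    have hx : x ∈ Subgroup.closure (T : Set Γ) := by rw [hT]; trivial
    rw [← Subgroup.mem_toSubmonoid, Subgroup.closure_toSubmonoid] at hx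
    refine Submonoid.closure_induction (motive := fun x _ => ∃ w ∈ V2 ⊔ V3,
      c (x * g * x⁻¹) g + D (ρ (x * g * x⁻¹) w - w) ∈ Vm) ?_ hone ?_ hx
    · intro t ht
      refine hgen t ?_
      rw [Finset.mem_union, Finset.mem_image]
      rcases ht with ht | ht
      · exact Or.inl ht
      · exact Or.inr ⟨t⁻¹, ht, inv_inv t⟩
    · intro a b _ _ ha hb
      exact hclose _ hVn le_sup_left a b ha hb
  -- conclusion
  have hfin : ∀ a ∈ A, ι a ∈ (V2 ⊔ V3) ⊔ (Vm.comap D).comap D := by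
    intro a ha
    obtain ⟨w, hw, hwm⟩ := hallx a
    have hα : a * g * a⁻¹ * g⁻¹ ∈ A := hLL a (hAL ha) g hg
    have e0 : a * g * a⁻¹ = (a * g * a⁻¹ * g⁻¹) * g := by group
    have e1 : c (a * g * a⁻¹) g = D (D (ι a)) := by
      have h1 : c (a * g * a⁻¹) g = c (a * g * a⁻¹ * g⁻¹) g := by
        rw [hc, hc]; congr 1; group
      have h2 : ι (a * g * a⁻¹ * g⁻¹) = ι a - ρ g (ι a) := by rw [← hc, c_a a ha]
      rw [h1, c_a _ hα, h2, hDv, hDv, map_sub, map_sub]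
      abel
    have e2 : ∀ v, ρ (a * g * a⁻¹) v = ρ g v := by
      intro v; rw [e0, hρmul, hρA _ hα]
    rw [e1, e2, ← hDv, ← map_add, ← map_add] at hwm
    have h3 : ι a + w ∈ (Vm.comap D).comap D := hwm
    have h4 : ι a = -w + (ι a + w) := by abel
    rw [h4]
    exact Submodule.add_mem_sup (Submodule.neg_mem _ hw) h3
  have hfd : FiniteDimensional K ((V2 ⊔ V3) ⊔ (Vm.comap D).comap D : Submodule K V) := by
    have h1 := hVn.1
    have h2 := hcomap _ (hcomap Vm hVm.1)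
    infer_instance
  have hle : (⊤ : Submodule K V) ≤ (V2 ⊔ V3) ⊔ (Vm.comap D).comap D := by
    rw [← hspan]
    refine Submodule.span_le.2 ?_
    rintro _ ⟨a, ha, rfl⟩
    exact hfin a ha
  have htopfd : FiniteDimensional K (⊤ : Submodule K V) := Submodule.finiteDimensional_of_le hle
  exact LinearEquiv.finiteDimensional Submodule.topEquiv

end MBP
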