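import Mathlib
import Pool.Agent.Helper753.MBPP
import Pool.Agent.Helper753.MBP1

/-! From the acyclicity lemma to a finitely generated lattice. -/

namespace MBP

open Subgroup

universe u in
theorem hull (M : Type u) [AddCommGroup M] : ∃ (V : Type u) (_ : AddCommGroup V) (_ : Module ℚ V)
    (j : M →+ V), (∀ v, ∃ n : ℤ, n ≠ 0 ∧ ∃ m, (n : ℚ) • v = j m) ∧
      (∀ m, j m = 0 → ∃ n : ℤ, n ≠ 0 ∧ n • m = 0) ∧
      (∀ f : M →+ M, ∃ F : V →ₗ[ℚ] V, ∀ m, F (j m) = j (f m)) := by
  refine ⟨TensorProduct ℤ ℚ M, inferInstance, inferInstance,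
    (TensorProduct.mk ℤ ℚ M 1).toAddMonoidHom, ?_, ?_, ?_⟩
  · intro v
    obtain ⟨⟨m, s⟩, hs⟩ := IsLocalizedModule.surj (nonZeroDivisors ℤ) (TensorProduct.mk ℤ ℚ M 1) v
    refine ⟨s, nonZeroDivisors.coe_ne_zero s, m, ?_⟩
    rw [Int.cast_smul_eq_zsmul]
    exact hs
  · intro m hm
    obtain ⟨s, hs⟩ := (IsLocalizedModule.eq_zero_iff (nonZeroDivisors ℤ)
      (TensorProduct.mk ℤ ℚ M 1)).1 hm
    exact ⟨s, nonZeroDivisors.coe_ne_zero s, hs⟩
  · intro f
    exact ⟨LinearMap.baseChange ℚ f.toIntLinearMap, fun m => LinearMap.baseChange_tmul _ _ _⟩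

theorem exists_lattice {Γ : Type*} [Group Γ] [Group.FG Γ] (A L : Subgroup Γ) [A.Normal] [L.Normal]
    (hAL : A ≤ L) (hAc : ∀ a ∈ A, ∀ b ∈ A, a * b = b * a)
    (hLL : ∀ x ∈ L, ∀ y ∈ L, x * y * x⁻¹ * y⁻¹ ∈ A)
    (hloc : ∀ a ∈ A, ∃ W ≤ A, W.FG ∧ a ∈ W ∧ ∀ x : Γ, ∀ w ∈ W, x * w * x⁻¹ ∈ W)
    (g : Γ) (hg : g ∈ L) (hC : (A ⊓ centralizer {g}).FG) :
    ∃ W ≤ A, W.FG ∧ (∀ x : Γ, ∀ w ∈ W, x * w * x⁻¹ ∈ W) ∧
      ∀ a ∈ A, ∃ n : ℕ, n ≠ 0 ∧ a ^ n ∈ W := by
  classical
  letI : CommGroup A := { (inferInstance : Group A) with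
    mul_comm := fun a b => Subtype.ext (hAc a a.2 b b.2) }
  obtain ⟨V, _, _, j, hj1, hj2, hj3⟩ := hull (Additive A)
  let cf : Γ → (Additive A →+ Additive A) :=
    fun x => MonoidHom.toAdditive (MulAut.conjNormal x).toMonoidHom
  choose F hF using fun x => hj3 (cf x)
  have hext : ∀ F G : V →ₗ[ℚ] V, (∀ m, F (j m) = G (j m)) → F = G := by
    intro F G h
    ext v
    obtain ⟨n, hn, m, hm⟩ := hj1 v
    have hn' : (n : ℚ) ≠ 0 := by exact_mod_cast hn
    have h1 : (n : ℚ) • F v = (n : ℚ) • G v := by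
      rw [← map_smul, ← map_smul, hm, h]
    exact smul_right_injective V hn' h1
  have hcf : ∀ x (a : A), cf x (Additive.ofMul a) = Additive.ofMul (MulAut.conjNormal x a) :=
    fun x a => rfl
  let ρ : Γ →* (V →ₗ[ℚ] V) :=
    { toFun := F
      map_one' := by
        apply hext
        intro m
        rw [hF]
        show j (cf 1 m) = j m
        congr 1
        show Additive.ofMul (MulAut.conjNormal (1 : Γ) (Additive.toMul m)) = m
        rw [map_one]; rfl
      map_mul' := by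
        intro x y
        apply hext
        intro m
        show F (x * y) (j m) = F x (F y (j m))
        rw [hF, hF, hF]
        congr 1
        show Additive.ofMul (MulAut.conjNormal (x * y) (Additive.toMul m)) = Additive.ofMul (MulAut.conjNormal x (MulAut.conjNormal y (Additive.toMul m)))
        rw [map_mul]; rfl }
  have hρ : ∀ x m, ρ x (j m) = j (cf x m) := hF
  let ι : Γ → V := fun x => if h : x ∈ A then j (Additive.ofMul ⟨x, h⟩) else 0
  have hι : ∀ x (h : x ∈ A), ι x = j (Additive.ofMul ⟨x, h⟩) := fun x h => dif_pos h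
  have hmul : ∀ a ∈ A, ∀ b ∈ A, ι (a * b) = ι a + ι b := by
    intro a ha b hb
    rw [hι a ha, hι b hb, hι (a * b) (mul_mem ha hb), ← map_add]
    rfl
  have hconj : ∀ x, ∀ a ∈ A, ι (x * a * x⁻¹) = ρ x (ι a) := by
    intro x a ha
    have h1 : x * a * x⁻¹ ∈ A := Subgroup.Normal.conj_mem inferInstance a ha x
    rw [hι a ha, hι _ h1, hρ, hcf]
    congr 2
  have hA : ∀ a ∈ A, ρ a = 1 := by
    intro a ha
    apply hext
    intro m
    rw [hρ]
    show j (cf a m) = j m
    congr 1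
    show Additive.ofMul (MulAut.conjNormal a (Additive.toMul m)) = Additive.ofMul (Additive.toMul m)
    congr 1
    apply Subtype.ext
    rw [MulAut.conjNormal_apply, hAc a ha _ (Additive.toMul m).2]
    group
  have hone : ι 1 = 0 := by
    rw [hι 1 (one_mem A)]
    exact map_zero j
  have hinv : ∀ a ∈ A, ι a⁻¹ = - ι a := by
    intro a ha
    have h1 := hmul a ha a⁻¹ (inv_mem ha)
    rw [mul_inv_cancel, hone] at h1
    exact (neg_eq_of_add_eq_zero_right h1.symm).symm
  have hpow : ∀ a ∈ A, ∀ n : ℕ, ι (a ^ n) = (n : ℚ) • ι a := by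
    intro a ha n
    induction n with
    | zero => simp [hone]
    | succ n ih =>
      rw [pow_succ, hmul _ (pow_mem ha n) a ha, ih]
      push_cast
      rw [add_smul, one_smul]
  have hzero : ∀ a ∈ A, ι a = 0 → ∃ n : ℕ, n ≠ 0 ∧ a ^ n = 1 := by
    intro a ha h0
    rw [hι a ha] at h0
    obtain ⟨n, hn, hna⟩ := hj2 _ h0
    refine ⟨n.natAbs, by simpa using hn, ?_⟩
    have h1 : (⟨a, ha⟩ : A) ^ n = 1 := hna
    have h2 : a ^ n = 1 := congrArg Subtype.val h1
    exact pow_natAbs_eq_one.2 h2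
  have hsurj : ∀ v, ∃ n : ℕ, n ≠ 0 ∧ ∃ a ∈ A, (n : ℚ) • v = ι a := by
    intro v
    obtain ⟨n, hn, m, hm⟩ := hj1 v
    rcases Int.natAbs_eq n with h | h
    · refine ⟨n.natAbs, by simpa using hn, (Additive.toMul m : A), (Additive.toMul m).2, ?_⟩
      rw [hι _ (Additive.toMul m).2]
      rw [h] at hm
      simpa using hm
    · refine ⟨n.natAbs, by simpa using hn, ((Additive.toMul m : A) : Γ)⁻¹, inv_mem (Additive.toMul m).2, ?_⟩
      rw [hinv _ (Additive.toMul m).2, hι _ (Additive.toMul m).2]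
      rw [h] at hm
      have h3 : ((-(n.natAbs : ℤ) : ℤ) : ℚ) = - (n.natAbs : ℚ) := by
        rw [Int.cast_neg, Int.cast_natCast]
      rw [h3, neg_smul] at hm
      rw [eq_neg_iff_add_eq_zero, add_comm]
      have h4 : j (Additive.ofMul (⟨(Additive.toMul m : A), (Additive.toMul m).2⟩ : A)) = j m := rfl
      rw [h4, ← hm]
      simp
  -- spans
  have hcl : ∀ S : Set Γ, S ⊆ A → ∀ w ∈ closure S, ι w ∈ Submodule.span ℚ (ι '' S) := by
    intro S hS w hw
    have hle : closure S ≤ A := (closure_le A).2 hS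
    induction hw using closure_induction with
    | mem x hx => exact Submodule.subset_span ⟨x, hx, rfl⟩
    | one => rw [hone]; exact Submodule.zero_mem _
    | mul x y hx hy h1 h2 =>
      rw [hmul x (hle hx) y (hle hy)]
      exact Submodule.add_mem _ h1 h2
    | inv x hx h1 =>
      rw [hinv x (hle hx)]
      exact Submodule.neg_mem _ h1
  have hspfg : ∀ W ≤ A, W.FG → FiniteDimensional ℚ (Submodule.span ℚ (ι '' (W : Set Γ))) := by
    intro W hW hfg
    obtain ⟨S, rfl, hS⟩ := (Subgroup.fg_iff _).1 hfg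
    have hSA : S ⊆ A := fun s hs => hW (subset_closure hs)
    have h1 : Submodule.span ℚ (ι '' (closure S : Set Γ)) ≤ Submodule.span ℚ (ι '' S) := by
      rw [Submodule.span_le]
      rintro _ ⟨w, hw, rfl⟩
      exact hcl S hSA w hw
    haveI : FiniteDimensional ℚ (Submodule.span ℚ (ι '' S)) :=
      FiniteDimensional.span_of_finite ℚ (hS.image _)
    exact Submodule.finiteDimensional_of_le h1
  have hinvt : ∀ W ≤ A, (∀ x : Γ, ∀ w ∈ W, x * w * x⁻¹ ∈ W) →
      ∀ x, ∀ v ∈ Submodule.span ℚ (ι '' (W : Set Γ)), ρ x v ∈ Submodule.span ℚ (ι '' (W : Set Γ)) := by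
    intro W hW hinvW x v hv
    have h1 : Submodule.span ℚ (ι '' (W : Set Γ)) ≤ (Submodule.span ℚ (ι '' (W : Set Γ))).comap (ρ x) := by
      rw [Submodule.span_le]
      rintro _ ⟨w, hw, rfl⟩
      rw [SetLike.mem_coe, Submodule.mem_comap, ← hconj x w (hW hw)]
      exact Submodule.subset_span ⟨_, hinvW x w hw, rfl⟩
    exact h1 hv
  have hmem : ∀ (W : Submodule ℚ V) (v : V) (n : ℕ), n ≠ 0 → (n : ℚ) • v ∈ W → v ∈ W := by
    intro W v n hn h
    have hn' : (n : ℚ) ≠ 0 := by exact_mod_cast hn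
    exact (Submodule.smul_mem_iff W hn').1 h
  have hfd : FiniteDimensional ℚ V := by
    refine propP ρ A L hAL hLL ι hmul hconj hA ?_ ?_ g hg ?_
    · rw [eq_top_iff]
      intro v _
      obtain ⟨n, hn, a, ha, hna⟩ := hsurj v
      refine hmem _ v n hn ?_
      rw [hna]
      exact Submodule.subset_span ⟨a, ha, rfl⟩
    · intro v
      obtain ⟨n, hn, a, ha, hna⟩ := hsurj v
      obtain ⟨W, hWA, hWfg, haW, hWinv⟩ := hloc a ha
      refine ⟨Submodule.span ℚ (ι '' (W : Set Γ)), hspfg W hWA hWfg, ?_, hinvt W hWA hWinv⟩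
      refine hmem _ v n hn ?_
      rw [hna]
      exact Submodule.subset_span ⟨a, haW, rfl⟩
    · have h1 : LinearMap.ker (ρ g - 1) ≤
          Submodule.span ℚ (ι '' ((A ⊓ centralizer {g} : Subgroup Γ) : Set Γ)) := by
        intro v hv
        rw [LinearMap.mem_ker, LinearMap.sub_apply, sub_eq_zero] at hv
        obtain ⟨n, hn, a, ha, hna⟩ := hsurj v
        have h2 : ρ g (ι a) = ι a := by
          rw [← hna, map_smul, hv]; rfl
        have h3 : g * a * g⁻¹ ∈ A := Subgroup.Normal.conj_mem inferInstance a ha g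
        have h4 : ι (g * a * g⁻¹ * a⁻¹) = 0 := by
          rw [hmul _ h3 _ (inv_mem ha), hinv a ha, hconj g a ha, h2]
          simp
        obtain ⟨m, hm, h5⟩ := hzero _ (mul_mem h3 (inv_mem ha)) h4
        have h6 : a ^ m ∈ A ⊓ centralizer {g} := by
          refine Subgroup.mem_inf.2 ⟨pow_mem ha m, ?_⟩
          rw [mem_centralizer_singleton_iff]
          have h7 : Commute (g * a * g⁻¹) a⁻¹ := hAc _ h3 _ (inv_mem ha)
          rw [h7.mul_pow, conj_pow, inv_pow, mul_inv_eq_one, mul_inv_eq_iff_eq_mul] at h5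
          exact h5.symm
        refine hmem _ v n hn (hmem _ _ m hm ?_)
        rw [hna, ← hpow a ha m]
        exact Submodule.subset_span ⟨_, h6, rfl⟩
      haveI := hspfg _ (inf_le_left : A ⊓ centralizer {g} ≤ A) hC
      exact Submodule.finiteDimensional_of_le h1
  -- pick finitely many elements
  let b := Module.finBasis ℚ V
  choose n hn a ha hna using hsurj
  choose! W hWA hWfg haW hWinv using hloc
  let T : Subgroup Γ := ⨆ i, W (a (b i))
  have hTA : T ≤ A := iSup_le (fun i => hWA _ (ha _))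
  refine ⟨T, hTA, FG.iSup _ (fun i => hWfg _ (ha _)), ?_, ?_⟩
  · intro x w hw
    have h1 : T ≤ T.comap (MulAut.conj x).toMonoidHom := by
      refine iSup_le (fun i => ?_)
      intro w hw
      have h2 := hWinv _ (ha (b i)) x w hw
      exact (le_iSup (fun i => W (a (b i))) i) h2
    exact h1 hw
  · intro c hc
    have htop : ∀ v : V, v ∈ Submodule.span ℚ (ι '' (T : Set Γ)) := by
      intro v
      have h1 := b.span_eq
      have h2 : Submodule.span ℚ (Set.range b) ≤ Submodule.span ℚ (ι '' (T : Set Γ)) := by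
        rw [Submodule.span_le]
        rintro _ ⟨i, rfl⟩
        refine hmem _ _ (n (b i)) (hn _) ?_
        rw [hna]
        exact Submodule.subset_span ⟨_, (le_iSup (fun i => W (a (b i))) i) (haW _ (ha _)), rfl⟩
      rw [h1] at h2
      exact h2 trivial
    have hcomb : ∀ v ∈ Submodule.span ℚ (ι '' (T : Set Γ)), ∃ k : ℕ, k ≠ 0 ∧ ∃ t ∈ T, (k : ℚ) • v = ι t := by
      intro v hv
      induction hv using Submodule.span_induction with
      | mem x hx =>
        obtain ⟨t, ht, rfl⟩ := hx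
        exact ⟨1, one_ne_zero, t, ht, by simp⟩
      | zero => exact ⟨1, one_ne_zero, 1, one_mem _, by simp [hone]⟩
      | add x y _ _ h1 h2 =>
        obtain ⟨k, hk, t, ht, h1⟩ := h1
        obtain ⟨l, hl, s, hs, h2⟩ := h2
        refine ⟨k * l, mul_ne_zero hk hl, t ^ l * s ^ k, mul_mem (pow_mem ht _) (pow_mem hs _), ?_⟩
        rw [hmul _ (pow_mem (hTA ht) _) _ (pow_mem (hTA hs) _), hpow _ (hTA ht), hpow _ (hTA hs),
          ← h1, ← h2]
        push_cast
        rw [smul_add, smul_smul, smul_smul, mul_comm (l : ℚ)]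
      | smul q x _ h1 =>
        obtain ⟨k, hk, t, ht, h1⟩ := h1
        have hzp : ∀ z : ℤ, ι (t ^ z) = (z : ℚ) • ι t := by
          intro z
          rcases z with z | z
          · simpa using hpow t (hTA ht) z
          · rw [zpow_negSucc, hinv _ (pow_mem (hTA ht) _), hpow t (hTA ht), ← neg_smul]
            congr 1
        refine ⟨q.den * k, mul_ne_zero q.den_ne_zero hk, t ^ q.num, zpow_mem ht _, ?_⟩
        rw [hzp, ← h1, smul_smul, smul_smul]
        congr 1
        push_cast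
        have h3 : (q.den : ℚ) * q = q.num := by
          rw [mul_comm]; exact Rat.mul_den_eq_num q
        calc (q.den : ℚ) * k * q = (q.den * q) * k := by ring
          _ = q.num * k := by rw [h3]
    obtain ⟨k, hk, t, ht, hkt⟩ := hcomb _ (htop (ι c))
    have h1 : ι (c ^ k * t⁻¹) = 0 := by
      rw [hmul _ (pow_mem hc _) _ (inv_mem (hTA ht)), hpow _ hc, hinv _ (hTA ht), hkt]
      simp
    obtain ⟨m, hm, h2⟩ := hzero _ (mul_mem (pow_mem hc _) (inv_mem (hTA ht))) h1
    refine ⟨k * m, mul_ne_zero hk hm, ?_⟩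
    have h3 : Commute (c ^ k) t⁻¹ := hAc _ (pow_mem hc _) _ (inv_mem (hTA ht))
    rw [h3.mul_pow, inv_pow, mul_inv_eq_one, ← pow_mul] at h2
    rw [h2]
    exact pow_mem ht _

end MBP
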