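import Mathlib
import Pool.Agent.Helper753.MBP3
import Pool.Agent.Helper753.MBP4

/-! The final contradiction. -/

namespace MBP

open Subgroup

theorem index_lemma {W : Type*} [CommGroup W] (A₀ : Subgroup W) (D : W →* W)
    (hfin : A₀.index ≠ 0) (hD : ∀ a ∈ A₀, D a ∈ A₀) :
    (A₀ ⊔ D.range).index = A₀.relIndex (A₀.comap D) := by
  have h1 := relIndex_mul_index (show A₀ ≤ A₀.comap D from hD)
  have h2 := relIndex_mul_index (show A₀ ≤ A₀ ⊔ D.range from le_sup_left)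
  rw [index_comap] at h1
  rw [relIndex_sup_left] at h2
  have h3 : A₀.relIndex D.range ≠ 0 := by
    intro h
    rw [h, zero_mul] at h2
    exact hfin h2.symm
  have h4 : A₀.relIndex D.range * (A₀ ⊔ D.range).index
      = A₀.relIndex D.range * A₀.relIndex (A₀.comap D) := by
    rw [h2, ← h1, mul_comm]
  exact Nat.eq_of_mul_eq_mul_left (Nat.pos_of_ne_zero h3) h4

theorem index_ne_zero_of_torsion {W : Type*} [CommGroup W] [Group.FG W] (A₀ : Subgroup W)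
    (h : ∀ a : W, ∃ n : ℕ, n ≠ 0 ∧ a ^ n ∈ A₀) : A₀.index ≠ 0 := by
  have ht : Monoid.IsTorsion (W ⧸ A₀) := by
    intro q
    obtain ⟨a, rfl⟩ := QuotientGroup.mk'_surjective A₀ q
    obtain ⟨n, hn, han⟩ := h a
    rw [isOfFinOrder_iff_pow_eq_one]
    refine ⟨n, Nat.pos_of_ne_zero hn, ?_⟩
    rw [← map_pow, QuotientGroup.mk'_apply, QuotientGroup.eq_one_iff]
    exact han
  haveI : Finite (W ⧸ A₀) := CommGroup.finite_of_fg_torsion _ ht
  exact Subgroup.index_ne_zero_of_finite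

variable {G : Type*} [Group G]

theorem fg_subgroupOf {W H : Subgroup G} (hle : W ≤ H) (hW : W.FG) : (W.subgroupOf H).FG := by
  haveI : Group.FG W := (Group.fg_iff_subgroup_fg W).2 hW
  exact (Group.fg_iff_subgroup_fg _).1
    (Group.fg_of_surjective (f := (subgroupOfEquivOfLe hle).symm.toMonoidHom)
      (subgroupOfEquivOfLe hle).symm.surjective)

section setting

variable {A L : Subgroup G} [A.Normal] [L.Normal]

theorem loc_fin (hAL : A ≤ L) (hAc : ∀ a ∈ A, ∀ b ∈ A, a * b = b * a)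
    (hLL : ∀ x ∈ L, ∀ y ∈ L, x * y * x⁻¹ * y⁻¹ ∈ A) (hG : ∀ H : Subgroup G, Good L H)
    {H : Subgroup G} (hM : Mi L H) {F : Set G} (hF : F.Finite) (hFA : F ⊆ (A ⊓ H : Subgroup G)) :
    ∃ W ≤ A ⊓ H, W.FG ∧ F ⊆ W ∧ ∀ h ∈ H, ∀ w ∈ W, h * w * h⁻¹ ∈ W := by
  have hFH : F ⊆ H := fun x hx => (hFA hx).2
  have hAH : A ⊓ H ≤ H ⊓ centralizer F := by
    intro x hx
    refine Subgroup.mem_inf.2 ⟨hx.2, ?_⟩
    rw [mem_centralizer_iff]
    intro y hy
    exact hAc y (hFA hy).1 x hx.1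
  have hns : ¬ NS (H ⊓ centralizer F) := by
    intro h
    exact hM.2.1 (ns_of_A hAL hAc hLL hG hM.1 (h _ hAH))
  have hPS : PS (H ⊓ centralizer F) := hM.1.sub hF hFH
  have hM' : Mi L (H ⊓ centralizer F) := hM.sub inf_le_left hPS hns
  obtain ⟨g, hg, hgns⟩ := exists_bad hAL hAc hLL (hG _) hM'
  have hgL : g ∈ L := (Subgroup.mem_inf.1 hg).1
  have hgF : g ∈ centralizer F := (Subgroup.mem_inf.1 (Subgroup.mem_inf.1 hg).2).2
  rw [mem_centralizer_iff] at hgF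
  set C : Subgroup G := A ⊓ (H ⊓ centralizer F ⊓ centralizer {g}) with hC
  have hCfg : C.FG := hgns _ inf_le_right
  have hCF := cf_inter (hM.2.2 _ hPS hns (sup_le_sup_left inf_le_left L))
    (le_sup_right : H ≤ L ⊔ H)
  obtain ⟨T, hT, hTH, hTT⟩ := hCF
  set Sg : Subgroup G := ⨆ t ∈ T, C.map (MulAut.conj t).toMonoidHom with hSg
  have hSgfg : Sg.FG := FG.biSup hT _ (fun t _ => fg_map _ hCfg)
  have hSgA : Sg ≤ A := by
    refine iSup₂_le (fun t _ => ?_)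
    rintro _ ⟨c, hc, rfl⟩
    exact Subgroup.Normal.conj_mem inferInstance c (Subgroup.mem_inf.1 hc).1 t
  set W : Subgroup G := closure {x | ∃ h ∈ H, ∃ f ∈ F, x = h * f * h⁻¹} with hW
  have hWSg : W ≤ Sg := by
    rw [hW, closure_le]
    rintro _ ⟨h, hh, f, hf, rfl⟩
    obtain ⟨t, ht, hth⟩ := hTT h hh
    obtain ⟨hth1, hth2⟩ := Subgroup.mem_inf.1 hth
    obtain ⟨l, hl, c, hc, hlc⟩ := mem_sup_of_normal_left.1 hth1
    have hcH : c ∈ H := (Subgroup.mem_inf.1 hc).1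
    have hcF : c ∈ centralizer F := (Subgroup.mem_inf.1 hc).2
    rw [mem_centralizer_iff] at hcF
    have hcf := hcF f hf
    have hlH : l ∈ H := by
      have h1 := H.mul_mem hth2 (H.inv_mem hcH)
      rw [← hlc] at h1
      simpa using h1
    have hfA : f ∈ A := (hFA hf).1
    have hfH : f ∈ H := (hFA hf).2
    have hlfA : l * f * l⁻¹ ∈ A := Subgroup.Normal.conj_mem inferInstance f hfA l
    have hlfH : l * f * l⁻¹ ∈ H := H.mul_mem (H.mul_mem hlH hfH) (H.inv_mem hlH)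
    have hb : g⁻¹ * l⁻¹ * g * l ∈ A := by
      have := hLL g⁻¹ (inv_mem hgL) l⁻¹ (inv_mem hl)
      simpa using this
    have hbf := hAc _ hb f hfA
    have hgf := hgF f hf
    have hlfC : l * f * l⁻¹ ∈ C := by
      refine Subgroup.mem_inf.2 ⟨hlfA, Subgroup.mem_inf.2 ⟨hAH (Subgroup.mem_inf.2 ⟨hlfA, hlfH⟩), ?_⟩⟩
      rw [mem_centralizer_singleton_iff]
      -- `g l = l g (g⁻¹ l⁻¹ g l)`
      calc l * f * l⁻¹ * g = l * f * g * (g⁻¹ * l⁻¹ * g * l) * l⁻¹ := by group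
        _ = l * (f * g) * (g⁻¹ * l⁻¹ * g * l) * l⁻¹ := by group
        _ = l * g * (f * (g⁻¹ * l⁻¹ * g * l)) * l⁻¹ := by rw [hgf]; group
        _ = g * (l * f * l⁻¹) := by rw [← hbf]; group
    have h2 : h * f * h⁻¹ = t * (l * f * l⁻¹) * t⁻¹ := by
      have h3 : h = t * l * c := by rw [mul_assoc, hlc]; group
      rw [h3]
      calc t * l * c * f * (t * l * c)⁻¹ = t * l * (c * f) * (t * l * c)⁻¹ := by group
        _ = _ := by rw [← hcf]; group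
    rw [h2]
    have h4 : C.map (MulAut.conj t).toMonoidHom ≤ Sg := le_iSup₂_of_le t ht le_rfl
    exact h4 ⟨_, hlfC, rfl⟩
  refine ⟨W, ?_, ?_, ?_, ?_⟩
  · rw [hW, closure_le]
    rintro _ ⟨h, hh, f, hf, rfl⟩
    exact Subgroup.mem_inf.2 ⟨Subgroup.Normal.conj_mem inferInstance f (hFA hf).1 h,
      H.mul_mem (H.mul_mem hh (hFA hf).2) (H.inv_mem hh)⟩
  · exact comm_sub_fg hSgfg (fun x hx y hy => hAc x (hSgA hx) y (hSgA hy)) hWSg
  · intro f hf
    exact subset_closure ⟨1, H.one_mem, f, hf, by simp⟩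
  · intro h hh
    have h1 : W ≤ W.comap (MulAut.conj h).toMonoidHom := by
      rw [hW, closure_le]
      rintro _ ⟨k, hk, f, hf, rfl⟩
      refine subset_closure ⟨h * k, H.mul_mem hh hk, f, hf, ?_⟩
      show h * (k * f * k⁻¹) * h⁻¹ = _
      group
    intro w hw
    exact h1 hw

theorem lattice_H (hAL : A ≤ L) (hAc : ∀ a ∈ A, ∀ b ∈ A, a * b = b * a)
    (hLL : ∀ x ∈ L, ∀ y ∈ L, x * y * x⁻¹ * y⁻¹ ∈ A) (hG : ∀ H : Subgroup G, Good L H)
    {H : Subgroup G} (hM : Mi L H) : ∃ W ≤ A ⊓ H, W.FG ∧ (∀ h ∈ H, ∀ w ∈ W, h * w * h⁻¹ ∈ W) ∧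
      ∀ a ∈ A ⊓ H, ∃ n : ℕ, n ≠ 0 ∧ a ^ n ∈ W := by
  have hHfg : H.FG := by
    have := hM.1.inter Set.finite_empty (Set.empty_subset _)
    have h2 : centralizer (∅ : Set G) = ⊤ := by
      ext x; simp [mem_centralizer_iff]
    rwa [h2, inf_top_eq] at this
  haveI : Group.FG H := (Group.fg_iff_subgroup_fg H).2 hHfg
  obtain ⟨g, hg, hgns⟩ := exists_bad hAL hAc hLL (hG _) hM
  obtain ⟨hgL, hgH⟩ := Subgroup.mem_inf.1 hg
  obtain ⟨W, hWA, hWfg, hWinv, hWt⟩ := exists_lattice (A.subgroupOf H) (L.subgroupOf H)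
    (fun x hx => hAL hx) (fun a ha b hb => Subtype.ext (hAc a ha b hb))
    (fun x hx y hy => hLL x hx y hy)
    (by
      intro a ha
      obtain ⟨W, hW, hWfg, haW, hWinv⟩ := loc_fin hAL hAc hLL hG hM
        (Set.finite_singleton (a : G)) (Set.singleton_subset_iff.2 (Subgroup.mem_inf.2 ⟨ha, a.2⟩))
      refine ⟨W.subgroupOf H, fun x hx => (Subgroup.mem_inf.1 (hW hx)).1,
        fg_subgroupOf (hW.trans inf_le_right) hWfg, haW rfl, ?_⟩
      intro x w hw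
      exact hWinv x x.2 w hw)
    ⟨g, hgH⟩ hgL
    (by
      have h1 := hgns _ (inf_le_right : A ⊓ (H ⊓ centralizer {g}) ≤ _)
      have h2 := fg_subgroupOf (inf_le_right.trans inf_le_left : A ⊓ (H ⊓ centralizer {g}) ≤ H) h1
      convert h2 using 1
      ext x
      constructor
      · intro hx
        obtain ⟨hx1, hx2⟩ := Subgroup.mem_inf.1 hx
        rw [mem_centralizer_singleton_iff] at hx2
        refine mem_subgroupOf.2 (Subgroup.mem_inf.2 ⟨hx1, Subgroup.mem_inf.2 ⟨x.2, ?_⟩⟩)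
        rw [mem_centralizer_singleton_iff]
        exact congrArg Subtype.val hx2
      · intro hx
        obtain ⟨hx1, hx2⟩ := Subgroup.mem_inf.1 (mem_subgroupOf.1 hx)
        have hx3 := (Subgroup.mem_inf.1 hx2).2
        rw [mem_centralizer_singleton_iff] at hx3
        refine Subgroup.mem_inf.2 ⟨hx1, ?_⟩
        rw [mem_centralizer_singleton_iff]
        exact Subtype.ext hx3)
  refine ⟨W.map H.subtype, ?_, fg_map _ hWfg, ?_, ?_⟩
  · rintro _ ⟨w, hw, rfl⟩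
    exact Subgroup.mem_inf.2 ⟨hWA hw, w.2⟩
  · rintro h hh _ ⟨w, hw, rfl⟩
    exact ⟨⟨h, hh⟩ * w * ⟨h, hh⟩⁻¹, hWinv ⟨h, hh⟩ w hw, rfl⟩
  · intro a ha
    obtain ⟨ha1, ha2⟩ := Subgroup.mem_inf.1 ha
    obtain ⟨n, hn, h⟩ := hWt ⟨a, ha2⟩ ha1
    exact ⟨n, hn, ⟨_, h, rfl⟩⟩

/-- the commutator with `g` is a homomorphism on an abelian `g`-invariant group -/
def adg {W : Subgroup G} (hWc : ∀ a ∈ W, ∀ b ∈ W, a * b = b * a) (g : G)
    (hg : ∀ w ∈ W, g * w * g⁻¹ ∈ W) : W →* W where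
  toFun a := ⟨a * g * (a : G)⁻¹ * g⁻¹, by
    have h1 := hg _ (inv_mem a.2)
    have h2 := mul_mem a.2 h1
    have h3 : (a : G) * (g * (a : G)⁻¹ * g⁻¹) = a * g * (a : G)⁻¹ * g⁻¹ := by group
    rwa [h3] at h2⟩
  map_one' := by
    apply Subtype.ext
    show (1 : G) * g * (1 : G)⁻¹ * g⁻¹ = 1
    simp
  map_mul' := by
    intro a b
    apply Subtype.ext
    have h1 := hg _ (inv_mem a.2)
    have h2 := hg _ (inv_mem b.2)
    have h3 := hWc b b.2 _ (mul_mem h2 h1)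
    have h4 := hWc _ h1 _ h2
    have h5 := hWc b b.2 _ h1
    show (a : G) * b * g * ((a : G) * b)⁻¹ * g⁻¹ = (a * g * (a : G)⁻¹ * g⁻¹) * (b * g * (b : G)⁻¹ * g⁻¹)
    calc (a : G) * b * g * ((a : G) * b)⁻¹ * g⁻¹
        = a * b * ((g * (b : G)⁻¹ * g⁻¹) * (g * (a : G)⁻¹ * g⁻¹)) := by group
      _ = a * (b * (g * (a : G)⁻¹ * g⁻¹)) * (g * (b : G)⁻¹ * g⁻¹) := by rw [← h4]; group
      _ = _ := by rw [h5]; group

end setting

end MBP
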