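import Mathlib
import Pool.Agent.Helper753.MBP5

/-! The final contradiction. -/

namespace MBP

open Subgroup

variable {G : Type*} [Group G]

theorem final {A L : Subgroup G} [A.Normal] [L.Normal]
    (hAL : A ≤ L) (hAc : ∀ a ∈ A, ∀ b ∈ A, a * b = b * a)
    (hLL : ∀ x ∈ L, ∀ y ∈ L, x * y * x⁻¹ * y⁻¹ ∈ A) (hG : ∀ H : Subgroup G, Good L H)
    {H : Subgroup G} (hM : Mi L H) : False := by
  classical
  obtain ⟨A₀, hA₀, hA₀fg, hA₀inv, hA₀t⟩ := lattice_H hAL hAc hLL hG hM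
  obtain ⟨E, hE, hEf⟩ := (Subgroup.fg_iff _).1 hA₀fg
  have hA₀A : A₀ ≤ A := hA₀.trans inf_le_left
  have hA₀H : A₀ ≤ H := hA₀.trans inf_le_right
  have hEA₀ : E ⊆ A₀ := fun x hx => hE ▸ subset_closure hx
  have hAE : A ⊓ H ≤ H ⊓ centralizer E := by
    intro x hx
    obtain ⟨hx1, hx2⟩ := Subgroup.mem_inf.1 hx
    refine Subgroup.mem_inf.2 ⟨hx2, ?_⟩
    rw [mem_centralizer_iff]
    intro y hy
    exact hAc y (hA₀A (hEA₀ hy)) x hx1
  have hns : ¬ NS (H ⊓ centralizer E) := by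
    intro h
    exact hM.2.1 (ns_of_A hAL hAc hLL hG hM.1 (h _ hAE))
  have hPS : PS (H ⊓ centralizer E) := hM.1.sub hEf (hEA₀.trans hA₀H)
  have hM' : Mi L (H ⊓ centralizer E) := hM.sub inf_le_left hPS hns
  obtain ⟨g, hg, hgns⟩ := exists_bad hAL hAc hLL (hG _) hM'
  set H₀ : Subgroup G := H ⊓ centralizer E with hH₀
  obtain ⟨hgL, hgH₀⟩ := Subgroup.mem_inf.1 hg
  have hH₀H : H₀ ≤ H := inf_le_left
  have hcen : ∀ h ∈ H₀, ∀ z ∈ A₀, h * z = z * h := by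
    intro h hh z hz
    have h1 : h ∈ centralizer (A₀ : Set G) := by
      rw [← hE, centralizer_closure]
      exact (Subgroup.mem_inf.1 hh).2
    rw [mem_centralizer_iff] at h1
    exact (h1 z hz).symm
  have hA₀H₀ : A₀ ≤ H₀ := hA₀.trans hAE
  -- the subgroup `M`
  set M : Subgroup G := HF H₀ A₀ hcen {g} with hMdef
  have hMH₀ : M ≤ H₀ := fun x hx => hx.1
  have hMg : ∀ m ∈ M, m * g * m⁻¹ * g⁻¹ ∈ A₀ := fun m hm => hm.2 g rfl
  have hMns : NS M := by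
    intro K hK
    refine fg_of_hom_central (Z := A₀) (f := g) hA₀fg
      (fun z hz w hw => hAc z (hA₀A hz) w (hA₀A hw)) (fun k hk z hz => hcen k (hMH₀ (hK hk)) z hz)
      (fun k hk => hMg k (hK hk)) (hgns _ (inf_le_inf_right _ (hK.trans hMH₀)))
  set B₁ : Subgroup G := A ⊓ M with hB₁
  have hB₁fg : B₁.FG := hMns _ inf_le_right
  have hA₀M : A₀ ≤ M := by
    intro z hz
    refine ⟨hA₀H₀ hz, ?_⟩
    intro f hf
    rw [Set.mem_singleton_iff.1 hf]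
    have h1 := hcen g hgH₀ z hz
    rw [← h1]
    simp only [mul_inv_cancel_right, mul_inv_cancel]
    exact one_mem _
  have hrel : ∀ W ≤ A ⊓ H, W.FG → A₀ ≤ W → A₀.relIndex W ≠ 0 := by
    intro W hW hWfg hle
    letI : CommGroup W := { (inferInstance : Group W) with
      mul_comm := fun a b => Subtype.ext (hAc a (Subgroup.mem_inf.1 (hW a.2)).1 b (Subgroup.mem_inf.1 (hW b.2)).1) }
    haveI : Group.FG W := (Group.fg_iff_subgroup_fg W).2 hWfg
    refine index_ne_zero_of_torsion (A₀.subgroupOf W) ?_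
    intro a
    obtain ⟨n, hn, h⟩ := hA₀t a (hW a.2)
    exact ⟨n, hn, h⟩
  have hB₁AH : B₁ ≤ A ⊓ H := inf_le_inf_left A (hMH₀.trans hH₀H)
  have hc : A₀.relIndex B₁ ≠ 0 := hrel B₁ hB₁AH hB₁fg (le_inf hA₀A hA₀M)
  -- finiteness of the quotient
  set Q : Subgroup G := A ⊔ (M ⊓ L) with hQ
  have hfinite : Finite (↥(L ⊓ H₀) ⧸ Q.subgroupOf (L ⊓ H₀)) := by
    by_contra hinf
    rw [not_finite_iff_infinite] at hinf
    let φ := Infinite.natEmbedding (↥(L ⊓ H₀) ⧸ Q.subgroupOf (L ⊓ H₀))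
    let l : ℕ → ↥(L ⊓ H₀) := fun i => (φ i).out
    have hl : ∀ i, QuotientGroup.mk (s := Q.subgroupOf (L ⊓ H₀)) (l i) = φ i :=
      fun i => Quotient.out_eq' _
    have hlL : ∀ i, (l i : G) ∈ L := fun i => (Subgroup.mem_inf.1 (l i).2).1
    have hlH₀ : ∀ i, (l i : G) ∈ H₀ := fun i => (Subgroup.mem_inf.1 (l i).2).2
    set c := A₀.relIndex B₁ with hcdef
    let e : ℕ → G := fun i => (l i : G) * g * (l i : G)⁻¹ * g⁻¹
    have heAH : ∀ i, e i ∈ A ⊓ H := by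
      intro i
      refine Subgroup.mem_inf.2 ⟨hLL _ (hlL i) g hgL, ?_⟩
      exact H.mul_mem (H.mul_mem (H.mul_mem (hH₀H (hlH₀ i)) (hH₀H hgH₀))
        (H.inv_mem (hH₀H (hlH₀ i)))) (H.inv_mem (hH₀H hgH₀))
    obtain ⟨W, hWA, hWfg, hFW, hWinv⟩ := loc_fin hAL hAc hLL hG hM
      (F := E ∪ e '' (Set.Iio (c + 1))) (hEf.union ((Set.finite_Iio _).image _))
      (Set.union_subset (fun x hx => hA₀ (hEA₀ hx)) (by rintro _ ⟨i, _, rfl⟩; exact heAH i))
    have hA₀W : A₀ ≤ W := by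
      rw [← hE, closure_le]
      exact fun x hx => hFW (Or.inl hx)
    have heW : ∀ i < c + 1, e i ∈ W := fun i hi => hFW (Or.inr ⟨i, hi, rfl⟩)
    have hWA' : ∀ w ∈ W, w ∈ A := fun w hw => (Subgroup.mem_inf.1 (hWA hw)).1
    have hWc : ∀ a ∈ W, ∀ b ∈ W, a * b = b * a := fun a ha b hb => hAc a (hWA' a ha) b (hWA' b hb)
    letI : CommGroup W := { (inferInstance : Group W) with
      mul_comm := fun a b => Subtype.ext (hWc a a.2 b b.2) }
    haveI : Group.FG W := (Group.fg_iff_subgroup_fg W).2 hWfg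
    have hginv : ∀ w ∈ W, g * w * g⁻¹ ∈ W := hWinv g (hH₀H hgH₀)
    let D : W →* W := adg hWc g hginv
    have hDdef : ∀ a : W, ((D a : W) : G) = a * g * (a : G)⁻¹ * g⁻¹ := fun a => rfl
    have hindex := index_lemma (A₀.subgroupOf W) D (hrel W hWA hWfg hA₀W) (by
      intro a ha
      have h1 : (a : G) ∈ A₀ := ha
      show ((D a : W) : G) ∈ A₀
      rw [hDdef, ← hcen g hgH₀ a h1]
      simp only [mul_inv_cancel_right, mul_inv_cancel]
      exact one_mem _)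
    have hle : (A₀.subgroupOf W ⊔ D.range).index ≤ c := by
      rw [hindex]
      have h1 : (A₀.subgroupOf W).relIndex ((A₀.subgroupOf W).comap D)
          = A₀.relIndex (((A₀.subgroupOf W).comap D).map W.subtype) := relIndex_comap _ _ _
      rw [h1]
      refine relIndex_le_of_le_right ?_ hc
      rintro _ ⟨a, ha, rfl⟩
      have ha2 : ((D a : W) : G) ∈ A₀ := ha
      rw [hDdef] at ha2
      refine Subgroup.mem_inf.2 ⟨hWA' _ a.2, hAE (hWA a.2), ?_⟩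
      intro f hf
      rw [Set.mem_singleton_iff.1 hf]
      exact ha2
    have hne : (A₀.subgroupOf W ⊔ D.range).index ≠ 0 := by
      intro h0
      have h1 := relIndex_mul_index (show A₀.subgroupOf W ≤ A₀.subgroupOf W ⊔ D.range from le_sup_left)
      rw [h0, mul_zero] at h1
      exact hrel W hWA hWfg hA₀W h1.symm
    haveI : (A₀.subgroupOf W ⊔ D.range).FiniteIndex := ⟨hne⟩
    haveI : Finite (W ⧸ (A₀.subgroupOf W ⊔ D.range)) := inferInstance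
    letI : Fintype (W ⧸ (A₀.subgroupOf W ⊔ D.range)) := Fintype.ofFinite _
    obtain ⟨i, j, hij, hcl⟩ := Fintype.exists_ne_map_eq_of_card_lt
      (fun i : Fin (c + 1) => QuotientGroup.mk (s := A₀.subgroupOf W ⊔ D.range) (⟨e i, heW i i.2⟩ : W))
      (by
        rw [Fintype.card_fin, ← Nat.card_eq_fintype_card]
        have : Nat.card (W ⧸ (A₀.subgroupOf W ⊔ D.range)) = (A₀.subgroupOf W ⊔ D.range).index := rfl
        omega)
    have hcl' := QuotientGroup.eq.1 hcl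
    obtain ⟨z, hz, d, hd, hzd⟩ := Subgroup.mem_sup.1 hcl'
    obtain ⟨a, rfl⟩ := hd
    have hz' : (z : G) ∈ A₀ := hz
    have heq : (z : G) * (a * g * (a : G)⁻¹ * g⁻¹) = (e i)⁻¹ * e j := by
      have := congrArg (fun w : W => (w : G)) hzd
      exact this
    -- now `l i ⁻¹ * l j ∈ Q`
    have hQmem : ((l i : ↥(L ⊓ H₀)) : G)⁻¹ * ((l j : ↥(L ⊓ H₀)) : G) ∈ Q := by
      set x : G := ((l i : ↥(L ⊓ H₀)) : G) with hx
      set y : G := ((l j : ↥(L ⊓ H₀)) : G) with hy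
      have hxL : x ∈ L := hlL i
      have hyL : y ∈ L := hlL j
      have hxH : x ∈ H₀ := hlH₀ i
      have hyH : y ∈ H₀ := hlH₀ j
      have haA : (a : G) ∈ A := hWA' _ a.2
      have haH₀ : (a : G) ∈ H₀ := hAE (hWA a.2)
      set a' : G := x⁻¹ * a * x with ha'
      have ha'A : a' ∈ A := by
        have := Subgroup.Normal.conj_mem (H := A) inferInstance _ haA x⁻¹
        simpa using this
      have ha'H₀ : a' ∈ H₀ := H₀.mul_mem (H₀.mul_mem (H₀.inv_mem hxH) haH₀) hxH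
      have hkL : x⁻¹ * y ∈ L := mul_mem (inv_mem hxL) hyL
      have hkH : x⁻¹ * y ∈ H₀ := mul_mem (inv_mem hxH) hyH
      -- the commutator of `k`
      have hk1 : x⁻¹ * y * g * (x⁻¹ * y)⁻¹ * g⁻¹ = z * (a' * g * a'⁻¹ * g⁻¹) := by
        have hei : e i ∈ A := (Subgroup.mem_inf.1 (heAH i)).1
        have hej : e j ∈ A := (Subgroup.mem_inf.1 (heAH j)).1
        have h1 : e j * (e i)⁻¹ = z * (a * g * (a : G)⁻¹ * g⁻¹) := by
          rw [hAc _ hej _ (inv_mem hei)]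
          exact heq.symm
        have h2 : x⁻¹ * y * g * (x⁻¹ * y)⁻¹ * g⁻¹ = x⁻¹ * (e j * (e i)⁻¹) * x := by
          show x⁻¹ * y * g * (x⁻¹ * y)⁻¹ * g⁻¹ = x⁻¹ * ((y * g * y⁻¹ * g⁻¹) * (x * g * x⁻¹ * g⁻¹)⁻¹) * x
          group
        rw [h2, h1]
        have h3 : g⁻¹ * x⁻¹ * g * x ∈ A := by
          have := hLL g⁻¹ (inv_mem hgL) x⁻¹ (inv_mem hxL)
          simpa using this
        have h4 := hAc _ h3 _ (inv_mem ha'A)
        have h5 := hcen x⁻¹ (inv_mem hxH) z hz'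
        calc x⁻¹ * ((z : G) * (a * g * (a : G)⁻¹ * g⁻¹)) * x
            = (x⁻¹ * z) * (a * g * (a : G)⁻¹ * g⁻¹) * x := by group
          _ = z * (x⁻¹ * a * x * g * ((g⁻¹ * x⁻¹ * g * x) * (x⁻¹ * a * x)⁻¹) * (g⁻¹ * x⁻¹ * g * x)⁻¹ * g⁻¹) := by
              rw [h5]; group
          _ = z * (a' * g * a'⁻¹ * g⁻¹) := by
              rw [← ha', h4]; group
      have hm : a'⁻¹ * (x⁻¹ * y) ∈ M := by
        refine ⟨H₀.mul_mem (H₀.inv_mem ha'H₀) hkH, ?_⟩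
        intro f hf
        rw [Set.mem_singleton_iff.1 hf]
        have h1 : x⁻¹ * y * g * (x⁻¹ * y)⁻¹ * g⁻¹ ∈ A := hLL _ hkL g hgL
        have h2 := hAc _ h1 _ (inv_mem ha'A)
        have h3 : a'⁻¹ * (x⁻¹ * y) * g * (a'⁻¹ * (x⁻¹ * y))⁻¹ * g⁻¹ = z := by
          calc a'⁻¹ * (x⁻¹ * y) * g * (a'⁻¹ * (x⁻¹ * y))⁻¹ * g⁻¹
              = (a'⁻¹ * (x⁻¹ * y * g * (x⁻¹ * y)⁻¹ * g⁻¹)) * g * a' * g⁻¹ := by group
            _ = (x⁻¹ * y * g * (x⁻¹ * y)⁻¹ * g⁻¹) * (a'⁻¹ * g * a' * g⁻¹) := by rw [← h2]; group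
            _ = z * (a' * (g * a'⁻¹ * g⁻¹) * a'⁻¹ * (g * a' * g⁻¹)) := by
                rw [hk1]; group
            _ = z * ((g * a'⁻¹ * g⁻¹) * a' * a'⁻¹ * (g * a' * g⁻¹)) := by
                have h6 : g * a'⁻¹ * g⁻¹ ∈ A :=
                  Subgroup.Normal.conj_mem inferInstance _ (inv_mem ha'A) g
                rw [hAc _ ha'A _ h6]
            _ = z := by group
        rw [h3]
        exact hz'
      have hmL : a'⁻¹ * (x⁻¹ * y) ∈ L := mul_mem (inv_mem (hAL ha'A)) hkL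
      have h7 := mul_mem (mem_sup_left (T := M ⊓ L) ha'A)
        (mem_sup_right (S := A) (Subgroup.mem_inf.2 ⟨hm, hmL⟩))
      have h8 : a' * (a'⁻¹ * (x⁻¹ * y)) = x⁻¹ * y := by group
      rwa [h8] at h7
    have h9 : QuotientGroup.mk (s := Q.subgroupOf (L ⊓ H₀)) (l i) = QuotientGroup.mk (s := Q.subgroupOf (L ⊓ H₀)) (l j) :=
      QuotientGroup.eq.2 hQmem
    rw [hl, hl] at h9
    exact hij (Fin.ext (φ.injective h9))
  -- conclusion
  obtain ⟨S, hS, hSf⟩ := (Subgroup.fg_iff _).1 (hMns (M ⊓ L) inf_le_left)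
  let r : (↥(L ⊓ H₀) ⧸ Q.subgroupOf (L ⊓ H₀)) → G := fun q => (q.out : ↥(L ⊓ H₀))
  have hfg : FGmod A (L ⊓ H₀) := by
    refine ⟨S ∪ Set.range r, hSf.union (Set.finite_range r), Set.union_subset ?_ ?_, ?_⟩
    · intro s hs
      have : s ∈ M ⊓ L := hS ▸ subset_closure hs
      exact Subgroup.mem_inf.2 ⟨(Subgroup.mem_inf.1 this).2, hMH₀ (Subgroup.mem_inf.1 this).1⟩
    · rintro _ ⟨q, rfl⟩
      exact (q.out).2
    · intro x hx
      have h1 : (r (QuotientGroup.mk (⟨x, hx⟩ : ↥(L ⊓ H₀))))⁻¹ * x ∈ Q := by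
        have h2 : QuotientGroup.mk (s := Q.subgroupOf (L ⊓ H₀))
            (Quotient.out (QuotientGroup.mk (s := Q.subgroupOf (L ⊓ H₀)) (⟨x, hx⟩ : ↥(L ⊓ H₀)))) =
            QuotientGroup.mk (⟨x, hx⟩ : ↥(L ⊓ H₀)) := Quotient.out_eq' _
        have h2' := QuotientGroup.eq.1 h2
        exact h2'
      have h3 : Q ≤ A ⊔ closure (S ∪ Set.range r) :=
        sup_le_sup_left (hS.ge.trans (Subgroup.closure_mono Set.subset_union_left)) A
      have h4 := mul_mem (mem_sup_right (S := A) (subset_closure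
        (Or.inr ⟨(QuotientGroup.mk (⟨x, hx⟩ : ↥(L ⊓ H₀))), rfl⟩ :
          r (QuotientGroup.mk (⟨x, hx⟩ : ↥(L ⊓ H₀))) ∈ S ∪ Set.range r))) (h3 h1)
      simpa using h4
  exact hM'.2.1 (ns_of_L hAL hAc hLL (hG _) hPS hfg)

/-- abelian-by-abelian-by-polycyclic groups with property (C) have all subgroups f.g. -/
theorem main {A L : Subgroup G} [A.Normal] [L.Normal]
    (hAL : A ≤ L) (hAc : ∀ a ∈ A, ∀ b ∈ A, a * b = b * a)
    (hLL : ∀ x ∈ L, ∀ y ∈ L, x * y * x⁻¹ * y⁻¹ ∈ A)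
    (hsol : IsSolvable (G ⧸ L)) (hpc : ∀ K : Subgroup (G ⧸ L), K.FG)
    (hC : ∀ K : Subgroup G, K.FG → (centralizer (K : Set G)).FG) (K : Subgroup G) : K.FG := by
  have hG : ∀ H : Subgroup G, Good L H := good_of_polycyclic L hsol hpc
  have hPS : PS (⊤ : Subgroup G) := by
    intro K _ hK
    rw [top_inf_eq]
    exact hC K hK
  by_contra hcon
  have hns : ¬ NS (⊤ : Subgroup G) := fun h => hcon (h K le_top)
  obtain ⟨_, ⟨H, ⟨h1, h2⟩, rfl⟩, hmin⟩ := (hG ⊤).wf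
    ((fun H => L ⊔ H) '' {H | PS H ∧ ¬ NS H}) (Set.Nonempty.image _ ⟨⊤, hPS, hns⟩) (by
      rintro _ ⟨H, _, rfl⟩
      exact ⟨inf_le_left.trans le_sup_left, le_top⟩)
  exact final hAL hAc hLL hG (H := H) ⟨h1, h2, fun H' h3 h4 hle => hmin _ ⟨H', ⟨h3, h4⟩, rfl⟩ hle⟩

end MBP
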